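import Pool.Agent.Lib.DM.D.K3

/-!
# Theorem DM (`p = 3` inert), part D: valuations at the points of order `3 ^ j` (module `D10`; helper58)
-/

set_option autoImplicit false

open scoped Pointwise nonZeroDivisors

noncomputable section

namespace Pool.Agent.DM

open Pool.Agent.MuZ Pool.Agent.FW Pool.Agent.DN NumberField IsDedekindDomain
open Pool.Agent.DI (io ofC io_inj exists_io io_ofC ofC_io VP MP UP TP ex)
open Pool.Agent.DL (vl GE Pl)

namespace K3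

variable {n t : ℕ}

/-- The local situation above `3`, inert case. -/
theorem lcI (hX : S_XOm) (hR2 : S_R2) (hD1 : S_D1) (hD2 : S_D2) [Ine3 n t] {P : Ideal ZZ} (hP : Ab3 P)
    {b : Ideal (OO n t)} (hb : G30 b) : Lc P b := by
  have := hP.1.1
  have h2P := Dh.two_not hP
  obtain ⟨hc, -⟩ := hR2.1 n t P hP.1 h2P b hb
  obtain ⟨y, hy, hby⟩ := hR2.2.2 n t P hP b hb
  obtain ⟨a1, a2, a3, -, a5, -, -⟩ := hD1 n t P hP.1 h2P b hb
  obtain ⟨b1, -, -, b4, b5, -, -, -⟩ := hD2 n t P hP b hb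
  exact ⟨hP, hb, hX n t b hb, hc, by rw [hby]; exact DI.MP.mul_right hP.2 hy, a1, a2, a3, a5, b4, b5, b1⟩

section

variable [SqN n t] {P : Ideal ZZ} {b : Ideal (OO n t)}

/-- The points of order `3`, inert case. -/
theorem Lc.base (h : Lc P b) (hb2 : GE P 3 1 (1 - 8 * cO b)) {d : ℂ} (h3 : 3 * d ∈ Lam b)
    (hd : d ∉ Lam b) : vl P 3 (xO b d) = -(1 / 4) := by
  have := h.ab.1.1
  have hp := pl3 h.ab
  have hI : IK P b d := h.i3 d 1 (by rwa [pow_one])
  obtain ⟨h0, h1, hneg⟩ := h.ext hI hd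
  have hψ := h.psi h3 hd
  set X := xO b d with hX
  set c := cO b with hc
  set Y := X⁻¹ with hY
  have hY0 : Y ≠ 0 := inv_ne_zero h0
  have hvY : vl P 3 Y = -vl P 3 X := DL.vl_inv hp h0
  set s := vl P 3 Y with hs
  have hs0 : 0 < s := by linarith
  have hcV : VP P c := h.c.1
  have hc0 : c ≠ 0 := h.c.ne_zero
  have hvc : vl P 3 c = 0 := DL.vl_of_up hp h.c
  have he : c ^ 4 * Y ^ 4 = 3 + ((1 - 8 * c) * Y + 3 * (2 * c ^ 2) * Y ^ 2) := by
    have hXY : X * Y = 1 := mul_inv_cancel₀ h0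
    have h4 : (X * Y) ^ 4 * 3 + (X * Y) ^ 3 * (1 - 8 * c) * Y + 6 * c ^ 2 * (X * Y) ^ 2 * Y ^ 2 -
        c ^ 4 * Y ^ 4 = 0 := by
      linear_combination Y ^ 4 * hψ
    rw [hXY] at h4
    linear_combination -h4
  have h3v : vl P 3 (3 : Om) = 1 := by
    have := DL.vl_two hp
    exact_mod_cast this
  have g3 : GE P 3 1 (3 : Om) := Or.inr h3v.ge
  have gY : GE P 3 s Y := Or.inr le_rfl
  have h2V : VP P (2 : Om) := by exact_mod_cast DI.VP.nat (P := P) 2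
  have gr : GE P 3 (1 + s) ((1 - 8 * c) * Y + 3 * (2 * c ^ 2) * Y ^ 2) := by
    refine (hb2.mul hp gY).add hp ?_
    have e : 3 * (2 * c ^ 2) * Y ^ 2 = (3 * Y) * (2 * c ^ 2 * Y) := by ring
    rw [e]
    exact GE.mul_right hp (g3.mul hp gY) ((h2V.mul (hcV.pow 2)).mul h1.vp)
  have hv : vl P 3 (c ^ 4 * Y ^ 4) = 1 := by
    rw [he, (DL.vl_add_lt hp (three_ne_zero) (by
      rcases gr with h5 | h5
      · exact Or.inl h5
      · right
        rw [h3v]
        linarith)).2, h3v]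
  rw [DL.vl_mul hp (pow_ne_zero 4 hc0) (pow_ne_zero 4 hY0), DL.vl_pow hp hc0, DL.vl_pow hp hY0, hvc] at hv
  push_cast at hv
  linarith

/-- The points of order `3 ^ (j + 1)`, inert case. -/
theorem Lc.ord (h : Lc P b) (hb2 : GE P 3 1 (1 - 8 * cO b)) : ∀ (j : ℕ) (d : ℂ), (3 : ℂ) ^ (j + 1) * d ∈ Lam b →
    (3 : ℂ) ^ j * d ∉ Lam b → vl P 3 (xO b d) = -(1 / (4 * 9 ^ j)) := by
  intro j
  induction j with
  | zero =>
    intro d h1 h2
    rw [zero_add, pow_one] at h1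
    rw [pow_zero, one_mul] at h2
    rw [h.base hb2 h1 h2]
    norm_num
  | succ j ih =>
    intro d h1 h2
    have e1 : (3 : ℂ) ^ (j + 1) * (3 * d) = 3 ^ (j + 1 + 1) * d := by rw [pow_succ _ (j + 1)]; ring
    have e2 : (3 : ℂ) ^ j * (3 * d) = 3 ^ (j + 1) * d := by rw [pow_succ _ j]; ring
    have h3 := ih (3 * d) (by rwa [e1]) (by rwa [e2])
    have h4 : 3 * d ∉ Lam b := by
      intro h5
      apply h2
      have h6 := lam_mul ((3 : OO n t) ^ j) h5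
      rwa [toC_pow, toC_three, e2] at h6
    have hpos : (0 : ℚ) < 9 ^ j := by positivity
    have h9 : (1 : ℚ) ≤ 9 ^ j := one_le_pow₀ (by norm_num)
    have h5 := (h.step (θ := 1 / 4) (β := 1) (by norm_num) (by norm_num) (by norm_num) hb2
      (h.i3 d (j + 1 + 1) h1) h4 (by
        rw [h3]
        have h6 : 1 / (4 * (9 : ℚ) ^ j) ≤ 1 / 4 := by
          rw [div_le_div_iff₀ (by positivity) (by norm_num)]
          linarith
        linarith)).2
    rw [h3] at h5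
    have h7 : vl P 3 (xO b d) = -(1 / (4 * 9 ^ j)) / 9 := by linarith
    rw [h7, pow_succ]
    field_simp

/-- Powers. -/
theorem up_pow {m : ℕ} (hP : Ab3 P) {x : Om} (hx : x ≠ 0) (hm : m * vl P 3 x = 1) : UP P (x ^ m / 3) := by
  have := hP.1.1
  have hp := pl3 hP
  have h3v : vl P 3 (3 : Om) = 1 := by
    have := DL.vl_two hp
    exact_mod_cast this
  rw [← DL.vl_zero_iff hp (div_ne_zero (pow_ne_zero m hx) three_ne_zero),
    DL.vl_div hp (pow_ne_zero m hx) three_ne_zero, DL.vl_pow hp hx, hm, h3v, sub_self]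

/-- The difference, in terms of the valuation. -/
theorem Lc.difv (h : Lc P b) {z d : ℂ} (hz : Tor n t z) (hz2 : ¬ IK P b (2 * z)) {M : ℕ} (hM : Odd M)
    (hd : (M : ℂ) * d ∈ Lam b) (hdI : IK P b d) (hdl : d ∉ Lam b) : ∃ k : ℕ,
    2 * ((k : ℂ) * d) - d ∈ Lam b ∧ (k : ℂ) * d ∉ Lam b ∧
    xO b (z + d) - xO b z ≠ 0 ∧ vl P 3 (xO b (z + d) - xO b z) = -(vl P 3 (xO b ((k : ℂ) * d)) / 2) := by
  have := h.ab.1.1
  have hp := pl3 h.ab
  obtain ⟨i, hi⟩ := hM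
  have h1 : 2 * (((i + 1 : ℕ) : ℂ) * d) - d ∈ Lam b := by
    have e : 2 * (((i + 1 : ℕ) : ℂ) * d) - d = (M : ℂ) * d := by
      rw [hi]
      push_cast
      ring
    rwa [e]
  have h2 : ((i + 1 : ℕ) : ℂ) * d ∉ Lam b := by
    intro h3
    apply hdl
    have e : d = 2 * (((i + 1 : ℕ) : ℂ) * d) - (2 * (((i + 1 : ℕ) : ℂ) * d) - d) := by ring
    rw [e]
    have h4 := lam_mul (2 : OO n t) h3
    rw [toC_two] at h4
    exact lam_sub h4 h1
  have hI : IK P b (((i + 1 : ℕ) : ℂ) * d) := by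
    have := h.imul ((i + 1 : ℕ) : OO n t) d hdI
    rwa [toC_nat] at this
  refine ⟨i + 1, h1, h2, ?_⟩
  have h3 := h.dif hz hz2 hI h2
  have h4 : xO b (z + 2 * (((i + 1 : ℕ) : ℂ) * d)) = xO b (z + d) := (h.X.cng _ _ (by
    have e : z + 2 * (((i + 1 : ℕ) : ℂ) * d) - (z + d) = 2 * (((i + 1 : ℕ) : ℂ) * d) - d := by ring
    rwa [e])).1
  rw [h4] at h3
  have h5 := h3.ne_zero
  have h6 : xO b (z + d) - xO b z ≠ 0 := by
    intro h7
    rw [h7] at h5
    exact h5 (by ring)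
  have h7 : xO b (((i + 1 : ℕ) : ℂ) * d) ≠ 0 := right_ne_zero_of_mul h5
  refine ⟨h6, ?_⟩
  have h8 := DL.vl_of_up hp h3
  rw [DL.vl_mul hp (pow_ne_zero 2 h6) h7, DL.vl_pow hp h6] at h8
  push_cast at h8
  push_cast
  linarith

end

/-- The points of order `3`: `3 X⁴` and `W²/X³` are units (inert case). -/
theorem three_pt (hX : S_XOm) (hR2 : S_R2) (hD1 : S_D1) (hD2 : S_D2) [Ine3 n t] {P : Ideal ZZ} (hP : Ab3 P)
    {b : Ideal (OO n t)} (hb : G30 b) {d : ℂ} (h3 : 3 * d ∈ Lam b) (hd : d ∉ Lam b) :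
    UP P (3 * xO b d ^ 4) ∧ UP P (vO b d ^ 2 / xO b d ^ 3) ∧ vl P 3 (xO b d) = -(1 / 4) := by
  have := hP.1.1
  have hp := pl3 hP
  have h := lcI hX hR2 hD1 hD2 hP hb
  have hb2 : GE P 3 1 (1 - 8 * cO b) := (GE.two_iff hp).2 (by
    have := hR2.2.2 n t P hP b hb
    exact_mod_cast this)
  have hI : IK P b d := h.i3 d 1 (by rwa [pow_one])
  have h0 := (h.ext hI hd).1
  have hv := h.base hb2 h3 hd
  refine ⟨?_, h.w2 hI hd, hv⟩
  have h3v : vl P 3 (3 : Om) = 1 := by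
    have := DL.vl_two hp
    exact_mod_cast this
  rw [← DL.vl_zero_iff hp (mul_ne_zero three_ne_zero (pow_ne_zero 4 h0)),
    DL.vl_mul hp three_ne_zero (pow_ne_zero 4 h0), DL.vl_pow hp h0, hv, h3v]
  norm_num

end K3

/-- **The valuations at the points of order `3 ^ j`.** -/
theorem sD10 (hX : S_XOm) (hR2 : S_R2) (hD1 : S_D1) (hD2 : S_D2) : S_D10 := by
  intro n t _ P hP b hb j z d hz hz2 hd hd'
  have := hP.1.1
  have hp := K3.pl3 hP
  have h := K3.lcI hX hR2 hD1 hD2 hP hb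
  have hb2 : GE P 3 1 (1 - 8 * cO b) := (GE.two_iff hp).2 (by
    have := hR2.2.2 n t P hP b hb
    exact_mod_cast this)
  have hdl : d ∉ Lam b := by
    intro h3
    apply hd'
    have := lam_mul ((3 : OO n t) ^ j) h3
    rwa [toC_pow, toC_three] at this
  obtain ⟨k, k1, k2, k3, k4⟩ := h.difv hz hz2 (M := 3 ^ (j + 1)) (Odd.pow (by decide)) (by push_cast; exact hd)
    (h.i3 d (j + 1) hd) hdl
  have h5 : (3 : ℂ) ^ (j + 1) * ((k : ℂ) * d) ∈ Lam b := by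
    have := lam_mul (k : OO n t) hd
    rw [toC_nat] at this
    have e : (3 : ℂ) ^ (j + 1) * ((k : ℂ) * d) = k * (3 ^ (j + 1) * d) := by ring
    rwa [e]
  have h6 : (3 : ℂ) ^ j * ((k : ℂ) * d) ∉ Lam b := by
    intro h7
    apply hd'
    have h8 := lam_mul (2 : OO n t) h7
    have h9 := lam_mul ((3 : OO n t) ^ j) k1
    rw [toC_pow, toC_three] at h9
    rw [toC_two] at h8
    have e : (3 : ℂ) ^ j * d = 2 * (3 ^ j * (k * d)) - 3 ^ j * (2 * (k * d) - d) := by ring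
    rw [e]
    exact lam_sub h8 h9
  rw [h.ord hb2 j _ h5 h6] at k4
  refine K3.up_pow hP k3 ?_
  rw [k4]
  push_cast
  have hpos : (9 : ℚ) ^ j ≠ 0 := by positivity
  field_simp
  norm_num

end Pool.Agent.DM
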