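import Pool.Agent.Lib.DM.D.D8
import Pool.Agent.Lib.DS.D.Lg
import Pool.Agent.Lib.DS.R.GQ

/-!
# Theorem DM (`p = 3`), part D: `S_D5`, `Theta` is a unit (helper58)
-/

set_option autoImplicit false

open scoped Pointwise

noncomputable section

namespace Pool.Agent.DM

open Pool.Agent.MuZ Pool.Agent.FW Pool.Agent.DN NumberField IsDedekindDomain
open Pool.Agent.DI (io ofC io_inj exists_io io_ofC ofC_io VP MP UP TP ex sqr sqr_sq kap)

namespace D5h

section

variable {G F Γ : Type} [AddCommGroup G] [Field F] [LinearOrderedCommGroupWithZero Γ] {v : Valuation F Γ}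
  {Λ : Set G} {x : G → F} {b2 b4 b6 b8 : F}

theorem kr_of_two (h : KLn v Λ x b2 b4 b6 b8) {u : G} {N : ℕ} (hN : Odd N) (hu : N • u ∈ Λ)
    (h2 : Kr v Λ x (u + u)) : Kr v Λ x u := by
  obtain ⟨k, hk⟩ := hN
  have h1 : Kr v Λ x (N • u) := Or.inl hu
  have e : u = N • u - k • (u + u) := by
    rw [hk, add_smul, mul_smul, one_smul, two_smul, smul_add]
    abel
  rw [e]
  exact h.kr_sub h1 (h.kr_nsmul h2 k)

theorem kr_of_three (h : KLn v Λ x b2 b4 b6 b8) {u : G} {N : ℕ} (hN : ¬ 3 ∣ N) (hu : N • u ∈ Λ)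
    (h3 : Kr v Λ x (u + (u + u))) : Kr v Λ x u := by
  have h1 : Kr v Λ x (N • u) := Or.inl hu
  have h4 : N % 3 = 1 ∨ N % 3 = 2 := by omega
  have e3 : u + (u + u) = 3 • u := by
    rw [show (3 : ℕ) = 1 + (1 + 1) from rfl, add_smul, add_smul, one_smul]
  rw [e3] at h3
  have h5 := h.kr_sub h1 (h.kr_nsmul h3 (N / 3))
  have e : N • u - (N / 3) • (3 • u) = (N % 3) • u := by
    rw [← mul_smul, sub_eq_iff_eq_add, ← add_smul]
    congr 1
    omega
  rw [e] at h5
  rcases h4 with h4 | h4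
  · rwa [h4, one_smul] at h5
  · rw [h4] at h5
    have h6 := h.kr_sub h3 h5
    have e : 3 • u - 2 • u = u := by
      rw [show (3 : ℕ) = 2 + 1 from rfl, add_smul, one_smul]
      abel
    rwa [e] at h6

theorem v_cop {q N : ℕ} (hq : v (q : F) < 1) (h : q.Coprime N) : v (N : F) = 1 := by
  obtain ⟨a, b, hab⟩ := (Nat.isCoprime_iff_coprime.2 h : IsCoprime (q : ℤ) (N : ℤ))
  have e : ((b : ℤ) : F) * N - 1 = -(((a : ℤ) : F) * q) := by
    have := congrArg (fun k : ℤ => (k : F)) hab
    simp only [Int.cast_add, Int.cast_mul, Int.cast_natCast, Int.cast_one] at this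
    linear_combination this
  have h1 : v (((b : ℤ) : F) * N) = 1 := by
    refine vone ?_
    rw [e, v.map_neg]
    exact mmul (vint v a) hq
  refine le_antisymm (vnat v N) ?_
  rw [← h1, v.map_mul]
  exact mul_le_of_le_one_left' (vint v b)

/-- One factor of `Theta` in a good coordinate. -/
theorem fac (h : KLn v Λ x b2 b4 b6 b8) (hd : v (dsc b2 b4 b6 b8) = 1) {u z : G} (hz : ¬ Kr v Λ x z)
    (h1 : ¬ Kr v Λ x (z + u)) (h2 : ¬ Kr v Λ x (z - u)) (hu : u ∉ Λ) {N : ℕ} (hN2 : Odd N) (hN3 : ¬ 3 ∣ N)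
    (hN : N • u ∈ Λ) : v ((x u - x (u + u)) / (x z - x u)) = 1 := by
  have iz : v (x z) ≤ 1 := not_lt.1 fun h' => hz (Or.inr h')
  by_cases hk : Kr v Λ x u
  · have hbig : 1 < v (x u) := hk.resolve_left hu
    -- `2` and `3` are units
    have unit : ∀ q : ℕ, q.Coprime N → v (q : F) = 1 := by
      intro q hq
      refine le_antisymm (vnat v q) ?_
      by_contra hc
      exact hu (h.ker_nat hk (v_cop (not_le.1 hc) hq) hN)
    have u2 : v (2 : F) = 1 := by
      have := unit 2 (Nat.coprime_two_left.2 hN2)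
      exact_mod_cast this
    have u3 : v (3 : F) = 1 := by
      have := unit 3 ((Nat.Prime.coprime_iff_not_dvd Nat.prime_three).2 hN3)
      exact_mod_cast this
    have hu2 : u + u ∉ Λ := by
      intro h3
      apply hu
      refine h.ker_nat hk (j := 2) (by exact_mod_cast u2) ?_
      rw [two_smul]
      exact h3
    have e1 := h.xi_two hk
    rw [xi_not hu, xi_not hu2] at e1
    have hk2 := h.kr_two hk
    have hbig2 : 1 < v (x (u + u)) := hk2.resolve_left hu2
    set a := (x u)⁻¹ with ha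
    set a' := (x (u + u))⁻¹ with ha'
    have ha0 : a ≠ 0 := inv_ne_zero (ne_zero_of_lt hbig)
    have ha0' : a' ≠ 0 := inv_ne_zero (ne_zero_of_lt hbig2)
    have ha1 : v a < 1 := inv_lt hbig
    have hpos : 0 < v a := zero_lt_iff.2 ((v.ne_zero_iff).2 ha0)
    have e2 : v (a' - 4 * a) < v a := by
      refine lt_of_le_of_lt e1 ?_
      calc v a * v a < v a * 1 := by gcongr
        _ = v a := mul_one _
    have v4 : v (4 * a) = v a := by
      have : (4 : F) = 2 * 2 := by norm_num
      rw [v.map_mul, this, v.map_mul, u2, one_mul, one_mul]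
    have va' : v a' = v a := by
      have e3 : a' = (a' - 4 * a) + 4 * a := by ring
      rw [e3, v.map_add_eq_of_lt_right (by rw [v4]; exact e2), v4]
    have v3 : v (a' - a) = v a := by
      have e3 : a' - a = (a' - 4 * a) + 3 * a := by ring
      have v5 : v (3 * a) = v a := by rw [v.map_mul, u3, one_mul]
      rw [e3, v.map_add_eq_of_lt_right (by rw [v5]; exact e2), v5]
    have e4 : (x u - x (u + u)) / (x z - x u) = (a' - a) / (a' * (a * x z - 1)) := by
      have hx1 : x u = a⁻¹ := by rw [ha, inv_inv]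
      have hx2 : x (u + u) = a'⁻¹ := by rw [ha', inv_inv]
      rw [hx1, hx2]
      by_cases hc : a * x z - 1 = 0
      · have : x z - a⁻¹ = 0 := by
          field_simp
          linear_combination hc
        rw [hc, this]
        simp
      · have hc' : x z - a⁻¹ ≠ 0 := by
          intro h0
          apply hc
          have : x z = a⁻¹ := sub_eq_zero.1 h0
          rw [this, mul_inv_cancel₀ ha0, sub_self]
        have hc2 : x z * a - 1 ≠ 0 := by rwa [mul_comm (x z) a]
        field_simp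
    have v6 : v (a * x z - 1) = 1 := by
      refine vcongr (y := -1) ?_ (by rw [v.map_neg, v.map_one])
      have : a * x z - 1 - -1 = a * x z := by ring
      rw [this]
      exact mmulr ha1 iz
    rw [e4, v.map_div, v.map_mul, v3, va', v6, mul_one]
    exact div_self (ne_of_gt hpos)
  · have iu : v (x u) ≤ 1 := not_lt.1 fun h' => hk (Or.inr h')
    have hk2 : ¬ Kr v Λ x (u + u) := fun h' => hk (kr_of_two h hN2 hN h')
    have hk3 : ¬ Kr v Λ x (u + (u + u)) := fun h' => hk (kr_of_three h hN3 hN h')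
    have iu2 : v (x (u + u)) ≤ 1 := not_lt.1 fun h' => hk2 (Or.inr h')
    have v1 : v (x u - x (u + u)) = 1 := by
      refine le_antisymm (vsub iu iu2) ?_
      by_contra hc
      rcases h.sep hd hk hk2 (not_le.1 hc) with h5 | h5
      · exact hk3 h5
      · apply hk
        have e : u = -(u - (u + u)) := by abel
        rw [e]
        exact h.kr_neg h5
    have v2 : v (x z - x u) = 1 := by
      refine le_antisymm (vsub iz iu) ?_
      by_contra hc
      rcases h.sep hd hz hk (not_le.1 hc) with h5 | h5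
      · exact h1 h5
      · exact h2 h5
    rw [v.map_div, v1, v2, div_one]

end

/-- `Theta` is a unit, in a good coordinate. -/
theorem thC_unit {n t : ℕ} [SqN n t] {Γ : Type} [LinearOrderedCommGroupWithZero Γ] {v : Valuation ℂ Γ}
    {m b : Ideal (OO n t)} (hm : m ≠ ⊥) (hb : b ≠ ⊥) (hm2 : PrI m 2) (hm3 : PrI m 3) {e s : ℂ}
    (hg : GCd v b e s) {z : ℂ} (hz : ∀ u ∈ Lam (m * b), ¬ Kr v (Lam b) (xx b e s) (z + u)) :
    v (ThC m b z) = 1 := by
  have hK := sVCrd n t Γ v b e s hb hg.toICd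
  have hh := (aB14 n t m b hm hb hm2).1
  unfold ThC
  rw [map_prod]
  refine Finset.prod_eq_one fun u hu => ?_
  obtain ⟨h1, h2⟩ := hh.mem u hu
  have hz0 : ¬ Kr v (Lam b) (xx b e s) z := by
    have := hz 0 (lam_zero _)
    rwa [add_zero] at this
  have hN := NI_lam h1
  have hN3 : ¬ 3 ∣ NI m := by
    have h3 := ((aO6 n t).2.2.1 3 m (by norm_num)).1 hm3
    exact (Nat.Prime.coprime_iff_not_dvd Nat.prime_three).1 h3.symm
  have h4 := fac hK hg.ds hz0 (hz u h1) (by rw [sub_eq_add_neg]; exact hz (-u) (lam_neg h1)) h2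
    (NI_odd hm2) hN3 (by rw [nsmul_eq_mul]; exact hN)
  have hs := hg.ne
  have e1 : (wpC b u - wpC b (2 * u)) / (wpC b z - wpC b u) =
      (xx b e s u - xx b e s (u + u)) / (xx b e s z - xx b e s u) := by
    have e2 : xx b e s u - xx b e s (u + u) = (wpC b u - wpC b (2 * u)) / s := by
      unfold xx
      rw [two_mul]
      ring
    have e3 : xx b e s z - xx b e s u = (wpC b z - wpC b u) / s := by
      unfold xx
      ring
    rw [e2, e3, div_div_div_cancel_right₀ hs]
  rw [e1]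
  exact h4

end D5h

/-- **D5.** -/
theorem sD5 (hR1 : DS.S_R1) (hGQ : DS.S_GQ) (hD1 : DS.S_D1) (hLgK : DS.S_LgK) : S_D5 := by
  intro n t _ m b hm hb30 hm30 Q hQ z hz hzu
  have hb : G15 b := Dh.g15 hb30
  have hm2 := Dh.p2 hm30
  have hm3 := Dh.p3 hm30
  haveI hP : Q.IsPrime := hQ.1
  obtain ⟨V, hV⟩ := exists_VQ hQ
  have htu : ∀ u ∈ Lam (m * b), Tor n t (z + u) := fun u hu =>
    tor_add hz (tor_lam (mul_ne_zero hm hb.ne) hu)
  rw [← hV.eq, Dh.io_th hR1 hm hb hm2 hz]
  by_cases h2 : MP Q 2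
  · have h15 : ¬ MP Q 15 := by
      intro h15
      have h3 : MP Q ((15 : Om) - 7 * 2) := by
        have h7 : VP Q (7 : Om) := by exact_mod_cast DI.VP.nat (P := Q) 7
        exact h15.sub (DI.MP.mul_left h7 h2)
      have e : (15 : Om) - 7 * 2 = 1 := by norm_num
      rw [e] at h3
      exact DI.MP.one_not h3
    have hG := hGQ n t Q hQ h15
    refine D5h.thC_unit hm hb.ne hm2 hm3 (hV.goodS hR1 hG hb) fun u hu hk => hzu u hu ?_
    have h4 : DN.IK Q b (z + u) := (hV.ikS hR1 hb).2 ⟨htu u hu, hk⟩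
    exact DS.IK.qp hD1 hG hb h4
  · obtain ⟨T, T', hT⟩ := ex_ord2 hb.ne
    refine D5h.thC_unit hm hb.ne hm2 hm3 (leg_good (hV.two hQ h2) hb.ne hT).1 fun u hu hk => hzu u hu ?_
    have h4 : IL Q b T T' (z + u) := (hV.ilS hb.ne hT).2 ⟨htu u hu, hk⟩
    exact (hLgK n t Q hQ h2 b hb.ne T T' hT).2.2.2.2.1 _ h4

end Pool.Agent.DM
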