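import Pool.Agent.Lib.DM.D.D8
import Pool.Agent.Lib.DS.D.Fer
import Pool.Agent.Lib.DS.D.ThU

/-!
# Theorem DM (`p = 3`), part D: `S_D6`, congruences of `Theta` (helper58, after helper9)
-/

set_option autoImplicit false

open scoped Pointwise

noncomputable section

namespace Pool.Agent.DM

open Pool.Agent.MuZ Pool.Agent.FW Pool.Agent.DN NumberField IsDedekindDomain
open Pool.Agent.DI (io ofC io_inj exists_io io_ofC ofC_io VP MP UP TP ex sqr sqr_sq kap)

namespace D6h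

/-- `x'` is congruent to `x ^ l`. -/
def C (Q : Ideal ZZ) (l : ℕ) (x' x : Om) : Prop := VP Q x' ∧ VP Q x ∧ MP Q (x' - x ^ l)

def F (Q : Ideal ZZ) (l : ℕ) : Prop := ∀ x y : Om, VP Q x → VP Q y →
  MP Q ((x + y) ^ l - (x ^ l + y ^ l)) ∧ MP Q ((x - y) ^ l - (x ^ l - y ^ l))

section

variable {Q : Ideal ZZ} [hP : Q.IsPrime] {l : ℕ}

theorem mul {x' x y' y : Om} (hx : C Q l x' x) (hy : C Q l y' y) :
    C Q l (x' * y') (x * y) := by
  refine ⟨hx.1.mul hy.1, hx.2.1.mul hy.2.1, ?_⟩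
  have e : x' * y' - (x * y) ^ l = (x' - x ^ l) * y' + x ^ l * (y' - y ^ l) := by
    rw [mul_pow]
    ring
  rw [e]
  exact (hx.2.2.mul_right hy.1).add (DI.MP.mul_left (hx.2.1.pow l) hy.2.2)

theorem sub (hF : F Q l) {x' x y' y : Om} (hx : C Q l x' x) (hy : C Q l y' y) :
    C Q l (x' - y') (x - y) := by
  refine ⟨hx.1.sub hy.1, hx.2.1.sub hy.2.1, ?_⟩
  have e : x' - y' - (x - y) ^ l =
      (x' - x ^ l) - (y' - y ^ l) - ((x - y) ^ l - (x ^ l - y ^ l)) := by ring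
  rw [e]
  exact (hx.2.2.sub hy.2.2).sub (hF x y hx.2.1 hy.2.1).2

theorem add (hF : F Q l) {x' x y' y : Om} (hx : C Q l x' x) (hy : C Q l y' y) :
    C Q l (x' + y') (x + y) := by
  refine ⟨hx.1.add hy.1, hx.2.1.add hy.2.1, ?_⟩
  have e : x' + y' - (x + y) ^ l =
      (x' - x ^ l) + (y' - y ^ l) - ((x + y) ^ l - (x ^ l + y ^ l)) := by ring
  rw [e]
  exact (hx.2.2.add hy.2.2).sub (hF x y hx.2.1 hy.2.1).1

theorem unit {x' x : Om} (hx : C Q l x' x) (hU : UP Q x) : UP Q x' :=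
  (hU.pow l).congr hx.2.2

theorem inv {x' x : Om} (hx : C Q l x' x) (hU : UP Q x) :
    C Q l x'⁻¹ x⁻¹ := by
  have hU' := unit hx hU
  refine ⟨hU'.inv.1, hU.inv.1, ?_⟩
  have e : x'⁻¹ - x⁻¹ ^ l = -(x' - x ^ l) * (x'⁻¹ * x⁻¹ ^ l) := by
    have h1 := hU'.ne_zero
    have h2 := hU.ne_zero
    rw [inv_pow]
    field_simp
    ring
  rw [e]
  exact hx.2.2.neg.mul_right (hU'.inv.1.mul (hU.inv.pow l).1)

theorem one : C Q l 1 1 := by
  refine ⟨DI.VP.one, DI.VP.one, ?_⟩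
  rw [one_pow, sub_self]
  exact DI.MP.zero

theorem pow {x' x : Om} (hx : C Q l x' x) (n : ℕ) : C Q l (x' ^ n) (x ^ n) := by
  induction n with
  | zero =>
    rw [pow_zero, pow_zero]
    exact one
  | succ n ih =>
    rw [pow_succ, pow_succ]
    exact mul ih hx

theorem prod (S : Finset ℂ) (f g : ℂ → Om) (h : ∀ u ∈ S, C Q l (f u) (g u)) :
    C Q l (∏ u ∈ S, f u) (∏ u ∈ S, g u) := by
  classical
  induction S using Finset.induction_on with
  | empty =>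
    rw [Finset.prod_empty, Finset.prod_empty]
    exact one
  | insert a T ha ih =>
    rw [Finset.prod_insert ha, Finset.prod_insert ha]
    exact mul (h a (Finset.mem_insert_self a T))
      (ih fun u hu => h u (Finset.mem_insert_of_mem hu))

/-- One factor. -/
theorem fac (hF : F Q l) {a' a b' b x' x y' y : Om} (ha : C Q l a' a) (hb : C Q l b' b)
    (hx : C Q l x' x) (hy : C Q l y' y) (hU : UP Q (x - y)) :
    C Q l ((a' - b') * (x' - y')⁻¹) ((a - b) * (x - y)⁻¹) :=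
  mul (sub hF ha hb) (inv (sub hF hx hy) hU)

theorem F1 : F Q 1 := by
  intro x y _ _
  constructor
  · rw [pow_one, pow_one, pow_one, sub_self]
    exact DI.MP.zero
  · rw [pow_one, pow_one, pow_one, sub_self]
    exact DI.MP.zero

theorem refl1 {x : Om} (hx : VP Q x) : C Q 1 x x := by
  refine ⟨hx, hx, ?_⟩
  rw [pow_one, sub_self]
  exact DI.MP.zero

end

end D6h

open D6h in
/-- **D6.** -/
theorem sD6 (hX : DS.S_XOm) (hR1 : DS.S_R1) (hD1 : DS.S_D1) (hD3 : DS.S_D3) : S_D6 := by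
  intro n t _ m b hm hb30 hm30 Q hQ _ hQm z hz hzu
  have hP : Q.IsPrime := hQ.1.1
  have hb : G15 b := Dh.g15 hb30
  have hm2 := Dh.p2 hm30
  obtain ⟨t1, -, t3⟩ := DS.sThU hX hD1 n t m b hm hb hm2 Q hQ
  obtain ⟨hIz, hVz, -, hfac⟩ := t3 z hz hzu
  obtain ⟨hH, -⟩ := aB14 n t m b hm hb.ne hm2
  have hnot : ∀ u ∈ hs m b, ¬ DN.IK Q b u := fun u hu => t1 hQm u (hH.mem u hu).1 (hH.mem u hu).2
  have hTu : ∀ u ∈ hs m b, Tor n t u := fun u hu => tor_lam (Eb.ne_mul hm hb.ne) (hH.mem u hu).1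
  have hnot2 : ∀ u ∈ hs m b, ¬ DN.IK Q b (2 * u) := by
    intro u hu
    obtain ⟨h1, h2⟩ := hH.mem u hu
    refine t1 hQm (2 * u) ?_ fun h => h2 (Dh.two_u hm2 h1 h)
    have := lam_mul (2 : OO n t) h1
    rwa [toC_two] at this
  have hVu : ∀ u ∈ hs m b, VP Q (DN.xO b u) := fun u hu => DS.IK.vp (hTu u hu) (hnot u hu)
  have hVu2 : ∀ u ∈ hs m b, VP Q (DN.xO b (2 * u)) := fun u hu => DS.IK.vp (tor_two (hTu u hu)) (hnot2 u hu)
  have hUu : ∀ u ∈ hs m b, UP Q (DN.xO b z - DN.xO b u) := fun u hu =>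
    (hfac u (hH.mem u hu).1).2 (hH.mem u hu).2 (hnot u hu)
  constructor
  · intro z' hz'
    have hc := DS.IK.red hD1 hQ hb hz hIz hz'
    have hx : C Q 1 (DN.xO b (z + z')) (DN.xO b z) := by
      refine ⟨?_, hVz, by rwa [pow_one]⟩
      have e : DN.xO b (z + z') = (DN.xO b (z + z') - DN.xO b z) + DN.xO b z := by ring
      rw [e]
      exact hc.vp.add hVz
    have h : C Q 1 (Theta m b (z + z')) (Theta m b z) := by
      rw [Dh.th_prod' hR1 hm hb hm2 hH hz, Dh.th_prod' hR1 hm hb hm2 hH (tor_add hz hz'.1)]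
      exact prod (hs m b) _ _ fun u hu =>
        fac F1 (refl1 (hVu u hu)) (refl1 (hVu2 u hu)) hx (refl1 (hVu u hu)) (hUu u hu)
    have h6 := h.2.2
    rwa [pow_one] at h6
  · intro q l hq hl hQq
    obtain ⟨hF3, hF4, -⟩ := DS.sFer n t q l hq hl Q hQ.1 hQq
    obtain ⟨-, -, -, hx3⟩ := hD3 n t q l hq hl Q hQ hQq b hb
    have hqp : q.IsPrime := hq.1
    have hq0 : q ≠ ⊥ := hq.2.1
    have hF : F Q l := fun x y hx hy => ⟨(hF4 x y hx hy).1, (hF4 x y hx hy).2.1⟩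
    have hqm : q.IsMaximal := hqp.isMaximal hq0
    have hsup : q ⊔ m = ⊤ := by
      by_contra hne
      have h3 : q ⊔ m = q := (hqm.eq_of_le hne le_sup_left).symm
      have h4 : m ≤ q := h3 ▸ le_sup_right
      exact hQm fun v hv => hQq v (h4 hv)
    have hq15 : PrI q 15 := (DS.sFer n t q l hq hl Q hQ.1 hQq).2.2.2.2.2.2.2.2.2
    have hqb : G15 (q * b) := g15_mul' hq0 hq15 hb
    have hHq : IsHalf m (q * b) (hs m b) :=
      (DS.sHsP n t m b hm hb.ne hm2).2.2.1 q (hs m b) hq0 hsup hH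
    have hth := Dh.th_prod' hR1 hm hqb hm2 hHq hz
    have hmk : ∀ {x' x : Om}, VP Q x → MP Q (x' - x ^ l) → C Q l x' x := by
      intro x' x hV h
      refine ⟨?_, hV, h⟩
      have e : x' = (x' - x ^ l) + x ^ l := by ring
      rw [e]
      exact h.vp.add (hV.pow l)
    have hcx : ∀ u : ℂ, Tor n t u → ¬ DN.IK Q b u → C Q l (DN.xO (q * b) u) (DN.xO b u) :=
      fun u hu hI => hmk (DS.IK.vp hu hI) (hx3 u hu hI).2
    have h : C Q l (Theta m (q * b) z) (Theta m b z) := by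
      rw [hth, Dh.th_prod' hR1 hm hb hm2 hH hz]
      refine prod (hs m b) _ _ fun u hu => ?_
      have hxu := hcx u (hTu u hu) (hnot u hu)
      exact fac hF hxu (hcx (2 * u) (tor_two (hTu u hu)) (hnot2 u hu)) (hcx z hz hIz) hxu (hUu u hu)
    exact h.2.2

end Pool.Agent.DM
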