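import Pool.Agent.Lib.DM.D.D6

/-!
# Theorem DM (`p = 3`), part D: `S_D7`, distribution of `Theta` up to a constant (helper58)
-/

set_option autoImplicit false

open scoped Pointwise

noncomputable section

namespace Pool.Agent.DM

open Pool.Agent.MuZ Pool.Agent.FW Pool.Agent.DN NumberField IsDedekindDomain
open Pool.Agent.DI (io ofC io_inj exists_io io_ofC ofC_io VP MP UP TP ex sqr sqr_sq kap)

namespace D7h

variable {n t : ℕ}

/-- a torsion point which is not in the lattice -/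
theorem pt [SqN n t] (c : Ideal (OO n t)) (hc : c ≠ ⊥) : ∃ z : ℂ, Tor n t z ∧ z ∉ Lam c := by
  obtain ⟨j, hj, hjc⟩ := exists_nat hc
  have hj' : (j : ℂ) ≠ 0 := by exact_mod_cast hj.ne'
  refine ⟨toC (1 : OO n t) / (2 * j : ℕ), tor_div (by omega) 1, fun h => ?_⟩
  obtain ⟨u, hu⟩ := h _ hjc
  rw [toC_nat, toC_one] at hu
  have h1 : toC ((2 : OO n t) * u) = toC (1 : OO n t) := by
    rw [toC_mul, toC_two, ← hu, toC_one]
    push_cast
    field_simp
  have h2 : ((2 : ℕ) : OO n t) ∣ 1 := ⟨u, by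
    rw [← toC_inj h1]
    push_cast
    rfl⟩
  have h3 := ((nat_dvd_iff 2 (1 : OO n t)).1 h2).1
  rw [re_one] at h3
  norm_num at h3

/-- Distribution with a constant, for `l` prime to `15`. -/
theorem dis [SqN n t] (hR1 : DS.S_R1) {m b l : Ideal (OO n t)} (hm : m ≠ ⊥) (hb : G15 b) (hm2 : PrI m 2)
    (hm3 : PrI m 3) (hl : l ≠ ⊥) (hlm : l ⊔ m = ⊤) (th : ℂ → Om)
    (hth : ∀ z : ℂ, Tor n t z → io (th z) = ThC m (l * b) z) :
    ∃ C : Om, C ≠ 0 ∧ ∀ R : Finset ℂ, IsSys l b R → ∀ z : ℂ, Tor n t z → z ∉ Lam (l * m * b) →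
      ∏ v ∈ R, Theta m b (z + v) = C * th z := by
  have hlb : l * b ≠ ⊥ := mul_ne_zero hl hb.ne
  have hlmb : l * m * b ≠ ⊥ := mul_ne_zero (mul_ne_zero hl hm) hb.ne
  obtain ⟨R0, hR0, -⟩ := (aL3 n t l b hl hb.ne).2.2
  obtain ⟨z0, hz0, hz0'⟩ := pt (l * m * b) hlmb
  obtain ⟨c, hc, h⟩ := Dh.thC_dis hl hm hb.ne hm2 hm3 hlm hR0
  have htor : ∀ v ∈ R0, Tor n t v := fun v hv => tor_lam hlb (hR0.mem v hv)
  have emul : m * (l * b) = l * m * b := by rw [← mul_assoc, mul_comm m l]
  have hio : ∀ z : ℂ, Tor n t z → z ∉ Lam (l * m * b) →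
      io (∏ v ∈ R0, Theta m b (z + v)) = c * io (th z) := by
    intro z hz hz'
    rw [map_prod, hth z hz, ← h z hz']
    exact Finset.prod_congr rfl fun v hv => Dh.io_th hR1 hm hb hm2 (tor_add hz (htor v hv))
  have hne : ∀ z : ℂ, Tor n t z → z ∉ Lam (l * m * b) → th z ≠ 0 := by
    intro z hz hz' h0
    have h1 := hth z hz
    rw [h0, map_zero] at h1
    exact Dh.thC_ne hm hlb hm2 hm3 (by rwa [emul]) h1.symm
  have hC : io ((∏ v ∈ R0, Theta m b (z0 + v)) / th z0) = c := by
    rw [map_div₀, hio z0 hz0 hz0', mul_div_cancel_right₀]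
    rw [← map_zero io]
    exact fun h1 => hne z0 hz0 hz0' (io_inj h1)
  refine ⟨(∏ v ∈ R0, Theta m b (z0 + v)) / th z0, ?_, fun R hR z hz hz' => ?_⟩
  · intro h0
    rw [h0, map_zero] at hC
    exact hc hC.symm
  · have hsys : ∏ v ∈ R, Theta m b (z + v) = ∏ v ∈ R0, Theta m b (z + v) := by
      refine sys_prod hR hR0 (fun v => Theta m b (z + v)) fun w y hy => ?_
      have h1 := Dh.thC_per (m := m) hb.ne (z := z + y) hy
      have e : z + y + (w - y) = z + w := by ring
      rw [e] at h1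
      unfold Theta
      rw [h1]
    rw [hsys]
    apply io_inj
    rw [map_mul, hC]
    exact hio z hz hz'

theorem half_not [SqN n t] {c : Ideal (OO n t)} (hc : PrI c 2) : (1 / 2 : ℂ) ∉ Lam c := by
  intro h
  have h1 := (div_lam_iff (N := 2) two_pos hc (1 : OO n t)).1 (by
    rw [toC_one]
    exact_mod_cast h)
  have h3 := ((nat_dvd_iff 2 (1 : OO n t)).1 h1).1
  rw [re_one] at h3
  norm_num at h3

end D7h

/-- **D7.** -/
theorem sD7 (hX : DS.S_XOm) (hR1 : DS.S_R1) (hGQ : DS.S_GQ) (hD1 : DS.S_D1) (hD3 : DS.S_D3) : S_D7 := by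
  intro n t _ m b hm hb30 hm30
  have hb : G15 b := Dh.g15 hb30
  have hm2 := Dh.p2 hm30
  have hm3 := Dh.p3 hm30
  constructor
  · intro l hl hl30 hlm
    have hlg : G15 (l * b) := g15_mul' hl (Dh.p15 hl30) hb
    obtain ⟨C, hC, h⟩ := D7h.dis hR1 hm hb hm2 hm3 hl hlm (fun z => Theta m (l * b) z)
      fun z hz => Dh.io_th hR1 hm hlg hm2 hz
    refine ⟨C, hC, h, fun p Q hp hQ hQl => ?_⟩
    haveI hP : Q.IsPrime := hQ.1
    have hl0 : l ≠ ⊥ := hl
    -- `p` is prime to `30`
    have hp30 : p.Coprime 30 := by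
      have h2 : NI l = p := hp.2.2.2
      rw [← h2]
      have h3 := ((aO6 n t).2.2.1 30 l (by norm_num)).1 hl30
      exact h3
    obtain ⟨-, -, hU, -, -, h2n, h3n, h5n, -, -⟩ := DS.sFer n t l p hp hp30 Q hQ hQl
    have h15n : ¬ MP Q 15 := by
      intro h15
      have h16 : MP Q ((3 : Om) * 5) := by
        have e : (3 : Om) * 5 = 15 := by norm_num
        rwa [e]
      have hv3 : VP Q (3 : Om) := by exact_mod_cast DI.VP.nat (P := Q) 3
      have hv5 : VP Q (5 : Om) := by exact_mod_cast DI.VP.nat (P := Q) 5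
      rcases DI.MP.mul_cases hv3 hv5 h16 with h17 | h17
      · exact h3n h17
      · exact h5n h17
    have hG : GQ n t Q := hGQ n t Q hQ h15n
    -- `Q` is not above `m`
    have hQm : ¬ Abv Q m := by
      intro hQm
      obtain ⟨v, hv, u, hu, e⟩ := (sup_top_iff).1 hlm
      have h3 := (hQl v hv).add (hQm u hu)
      rw [← toO_add, e, toO_one] at h3
      exact DI.MP.one_not h3
    obtain ⟨a, ham, haQ⟩ : ∃ a ∈ m, ¬ MP Q (toO a) := by
      by_contra hcon
      push_neg at hcon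
      exact hQm fun v hv => hcon v hv
    -- the point `1/2`
    have hz : Tor n t (1 / 2 : ℂ) := by
      have := tor_nat_div (n := n) (t := t) (N := 2) two_pos
      exact_mod_cast this
    have hlmb : PrI (l * m * b) 2 := Eb.pri_mul (Eb.pri_mul (Dh.p2 hl30) hm2) (Dh.p2 hb30.cop)
    have hz' : (1 / 2 : ℂ) ∉ Lam (l * m * b) := D7h.half_not hlmb
    have hzm : (1 / 2 : ℂ) ∉ Lam (m * b) := D7h.half_not (Eb.pri_mul hm2 (Dh.p2 hb30.cop))
    have one_mem : (1 : ℂ) ∈ Lam b := fun u _ => ⟨u, by rw [mul_one]⟩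
    have hzu : ∀ u ∈ Lam (m * b), ¬ Qp Q b (1 / 2 + u) := by
      intro u hu hq
      have h4 : ¬ MP Q (toO ((2 : OO n t) * a)) := by
        have h2O : toO (2 : OO n t) = 2 := by
          have := toO_nat (n := n) (t := t) 2
          exact_mod_cast this
        rw [toO_mul, h2O]
        intro h5
        have hv2 : VP Q (2 : Om) := by exact_mod_cast DI.VP.nat (P := Q) 2
        rcases DI.MP.mul_cases hv2 (toO_VP a) h5 with h6 | h6
        · exact h2n h6
        · exact haQ h6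
      have h5 := hq ((2 : OO n t) * a) 1 h4 (by
        rw [mul_one, toC_mul, toC_two, mul_add]
        refine lam_add ?_ ?_
        · have e : 2 * toC a * (1 / 2) = toC a * 1 := by ring
          rw [e]
          exact lam_mul a one_mem
        · rw [mul_assoc]
          have h6 := lam_mul (2 : OO n t) (lam_prod.1 hu a ham)
          rwa [toC_two] at h6)
      rw [toC_one, one_mul] at h5
      apply hzm
      have e : (1 / 2 : ℂ) = 1 / 2 + u - u := by ring
      rw [e]
      exact lam_sub (lam_mono h5) hu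
    obtain ⟨R0, hR0, hcard⟩ := (aL3 n t l b hl hb.ne).2.2
    have hD6 := sD6 hX hR1 hD1 hD3 n t m b hm hb30 hm30 Q hG h2n hQm (1 / 2) hz hzu
    have hker : ∀ v ∈ R0, DN.IK Q b v := fun v hv => (hD3 n t l p hp hp30 Q hG hQl b hb).1 v (hR0.mem v hv)
    have c1 : ∀ v ∈ R0, MP Q (Theta m b (1 / 2 + v) - Theta m b (1 / 2)) := fun v hv => hD6.1 v (hker v hv)
    have c2 := hD6.2 l p hp hp30 hQl
    -- `Theta` is a unit at `1/2`
    obtain ⟨t1, -, t3⟩ := DS.sThU hX hD1 n t m b hm hb hm2 Q hG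
    obtain ⟨hIz, hVz, -, hfac⟩ := t3 _ hz hzu
    obtain ⟨hH, -⟩ := aB14 n t m b hm hb.ne hm2
    have hTu : ∀ u ∈ hs m b, Tor n t u := fun u hu => tor_lam (mul_ne_zero hm hb.ne) (hH.mem u hu).1
    have hmem2 : ∀ u ∈ hs m b, 2 * u ∈ Lam (m * b) := fun u hu => by
      have := lam_mul (2 : OO n t) (hH.mem u hu).1
      rwa [toC_two] at this
    have hUth : UP Q (Theta m b (1 / 2)) := by
      rw [Dh.th_prod' hR1 hm hb hm2 hH hz]
      refine DI.UP.prod _ _ fun u hu => DI.UP.mul ?_ (DI.UP.inv ?_)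
      · obtain ⟨h1, h2⟩ := hH.mem u hu
        refine DS.IK.sep hD1 hG hb (hTu u hu) (tor_two (hTu u hu)) (t1 hQm u h1 h2)
          (t1 hQm _ (hmem2 u hu) fun h => h2 (Dh.two_u hm2 h1 h)) ?_ ?_
        · refine t1 hQm _ (lam_add h1 (hmem2 u hu)) fun h => h2 (Dh.three_u hm3 h1 ?_)
          have e : 3 * u = u + 2 * u := by ring
          rw [e]
          exact h
        · refine t1 hQm _ (lam_sub h1 (hmem2 u hu)) fun h => h2 ?_
          have e : u = -(u - 2 * u) := by ring
          rw [e]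
          exact lam_neg h
      · exact (hfac u (hH.mem u hu).1).2 (hH.mem u hu).2 (t1 hQm u (hH.mem u hu).1 (hH.mem u hu).2)
    have hrel := h R0 hR0 (1 / 2) hz hz'
    -- the product
    have hprod : MP Q (∏ v ∈ R0, Theta m b (1 / 2 + v) - Theta m b (1 / 2) ^ p) := by
      have h9 : R0.card = p := by rw [hcard]; exact hp.2.2.2
      have h10 : D6h.C Q 1 (∏ v ∈ R0, Theta m b (1 / 2 + v)) (∏ v ∈ R0, Theta m b (1 / 2)) := by
        refine D6h.prod R0 _ _ fun v hv => ⟨?_, hUth.1, by rw [pow_one]; exact c1 v hv⟩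
        have e : Theta m b (1 / 2 + v) = (Theta m b (1 / 2 + v) - Theta m b (1 / 2)) + Theta m b (1 / 2) := by
          ring
        rw [e]
        exact (c1 v hv).vp.add hUth.1
      have h11 := h10.2.2
      rw [pow_one, Finset.prod_const, h9] at h11
      exact h11
    have hUp : UP Q (Theta m b (1 / 2) ^ p) := hUth.pow p
    have hUl : UP Q (Theta m (l * b) (1 / 2)) := hUp.congr c2
    have h12 : MP Q ((C - 1) * Theta m (l * b) (1 / 2)) := by
      have e : (C - 1) * Theta m (l * b) (1 / 2) =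
          (∏ v ∈ R0, Theta m b (1 / 2 + v) - Theta m b (1 / 2) ^ p) -
            (Theta m (l * b) (1 / 2) - Theta m b (1 / 2) ^ p) := by
        rw [hrel]
        ring
      rw [e]
      exact hprod.sub c2
    have e13 : C - 1 = (C - 1) * Theta m (l * b) (1 / 2) * (Theta m (l * b) (1 / 2))⁻¹ := by
      rw [mul_inv_cancel_right₀ hUl.ne_zero]
    rw [e13]
    exact h12.mul_right hUl.inv.1
  · have h30 : (3 : OO n t) ≠ 0 := by
      intro h
      have h1 := congrArg (fun u : OO n t => toC u) h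
      simp only [toC_zero] at h1
      have h2 : toC (3 : OO n t) = 3 := by
        have := toC_nat (n := n) (t := t) 3
        exact_mod_cast this
      rw [h2] at h1
      norm_num at h1
    have h3C : toC (3 : OO n t) = 3 := by
      have := toC_nat (n := n) (t := t) 3
      exact_mod_cast this
    have hl : sp (3 : OO n t) ≠ ⊥ := Dh.ne_sp h30
    have hlm : sp (3 : OO n t) ⊔ m = ⊤ := by
      have h1 := hm3
      unfold PrI at h1
      rw [sup_comm]
      exact_mod_cast h1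
    obtain ⟨C, hC, h⟩ := D7h.dis hR1 hm hb hm2 hm3 hl hlm (fun z => Theta m b (3 * z))
      fun z hz => by
        have h5 : Tor n t (3 * z) := by
          have := tor_nat_mul 3 hz
          exact_mod_cast this
        rw [Dh.thC_hom hm hb.ne hm2 h30, h3C, Dh.io_th hR1 hm hb hm2 h5]
    refine ⟨C, hC, fun R hR z hz hz' => h R hR z hz fun h6 => hz' ?_⟩
    rw [mul_assoc, lam_sp, h3C] at h6
    exact h6

end Pool.Agent.DM
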