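import Pool.Agent.Lib.DM.Defs
import Pool.Agent.Lib.DS.D.HsP
import Pool.Agent.Lib.DN.B.All
import Pool.Agent.Lib.DN.O.All
import Pool.Agent.Lib.DN.B.B14

/-!
# Theorem DM (`p = 3`), part D: the new `Theta` over `ℂ` (helper58)
-/

set_option autoImplicit false

open scoped Pointwise nonZeroDivisors

noncomputable section

namespace Pool.Agent.DM

open Pool.Agent.MuZ Pool.Agent.FW Pool.Agent.DN NumberField IsDedekindDomain
open Pool.Agent.DI (io ofC io_inj exists_io io_ofC ofC_io VP MP UP TP ex)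

namespace Dh

variable {n t : ℕ}

/-- congruence modulo sign and lattice -/
def Eqv (b : Ideal (OO n t)) (z z' : ℂ) : Prop := z - z' ∈ Lam b ∨ z + z' ∈ Lam b

theorem Eqv.symm {b : Ideal (OO n t)} {z z' : ℂ} (h : Eqv b z z') : Eqv b z' z := by
  rcases h with h | h
  · left
    rw [← neg_sub]
    exact lam_neg h
  · right
    rwa [add_comm]

theorem Eqv.trans {b : Ideal (OO n t)} {z z' z'' : ℂ} (h : Eqv b z z')
    (h' : Eqv b z' z'') : Eqv b z z'' := by
  rcases h with h | h <;> rcases h' with h' | h'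
  · left
    have e : z - z'' = (z - z') + (z' - z'') := by ring
    rw [e]
    exact lam_add h h'
  · right
    have e : z + z'' = (z - z') + (z' + z'') := by ring
    rw [e]
    exact lam_add h h'
  · right
    have e : z + z'' = (z + z') - (z' - z'') := by ring
    rw [e]
    exact lam_sub h h'
  · left
    have e : z - z'' = (z + z') - (z' + z'') := by ring
    rw [e]
    exact lam_sub h h'

/-- The product over a half system does not depend on the half system. -/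
theorem half_prod {M : Type} [CommMonoid M] {m b : Ideal (OO n t)} {S S' : Finset ℂ} (hS : IsHalf m b S)
    (hS' : IsHalf m b S') (F : ℂ → M)
    (hF : ∀ z ∈ Lam (m * b), F (-z) = F z ∧ ∀ l ∈ Lam b, F (z + l) = F z) :
    ∏ u ∈ S, F u = ∏ u ∈ S', F u := by
  classical
  have hex : ∀ u ∈ S, ∃ u' ∈ S', Eqv b u u' := fun u hu =>
    hS'.ex u (hS.mem u hu).1 (hS.mem u hu).2
  choose! e he1 he2 using hex
  refine Finset.prod_bij (fun u _ => e u) he1 ?_ ?_ ?_
  · intro u hu u' hu' h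
    apply hS.uni u hu u' hu'
    have h1 := he2 u hu
    have h2 := he2 u' hu'
    rw [← h] at h2
    exact h1.trans h2.symm
  · intro u' hu'
    obtain ⟨u, hu, h⟩ := hS.ex u' (hS'.mem u' hu').1 (hS'.mem u' hu').2
    refine ⟨u, hu, ?_⟩
    apply hS'.uni (e u) (he1 u hu) u' hu'
    exact (Eqv.trans h (he2 u hu)).symm
  · intro u hu
    have hm := (hS'.mem (e u) (he1 u hu)).1
    rcases he2 u hu with h | h
    · have h1 := (hF (e u) hm).2 _ h
      rwa [add_sub_cancel] at h1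
    · have h1 := (hF (-e u) (lam_neg hm)).2 _ h
      have e1 : -e u + (u + e u) = u := by ring
      rw [e1] at h1
      rw [h1]
      exact (hF (e u) hm).1

theorem wp_ev [SqN n t] {b : Ideal (OO n t)} (hb : b ≠ ⊥) (z : ℂ) : wpC b (-z) = wpC b z :=
  ((aB1 n t b hb).2.1 z).1

theorem wp_per [SqN n t] {b : Ideal (OO n t)} (hb : b ≠ ⊥) {z l : ℂ} (hl : l ∈ Lam b) :
    wpC b (z + l) = wpC b z := ((aB1 n t b hb).1 z l hl).1

theorem wp_per2 [SqN n t] {b : Ideal (OO n t)} (hb : b ≠ ⊥) {z l : ℂ} (hl : l ∈ Lam b) :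
    wpC b (2 * (z + l)) = wpC b (2 * z) := by
  have h1 : 2 * (z + l) = 2 * z + 2 * l := by ring
  have h2 : 2 * l ∈ Lam b := by
    have := lam_mul (2 : OO n t) hl
    rwa [toC_two] at this
  rw [h1, wp_per hb h2]

theorem wp_ev2 [SqN n t] {b : Ideal (OO n t)} (hb : b ≠ ⊥) (z : ℂ) : wpC b (2 * -z) = wpC b (2 * z) := by
  rw [mul_neg, wp_ev hb]

/-- the factor -/
def qT (b : Ideal (OO n t)) (z u : ℂ) : ℂ := (wpC b u - wpC b (2 * u)) / (wpC b z - wpC b u)

theorem thC_half [SqN n t] {m b : Ideal (OO n t)} (hm : m ≠ ⊥) (hb : b ≠ ⊥) (hm2 : PrI m 2) {S : Finset ℂ}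
    (hS : IsHalf m b S) (z : ℂ) : ∏ u ∈ S, (wpC b u - wpC b (2 * u)) / (wpC b z - wpC b u) = ThC m b z := by
  have hh := (aB14 n t m b hm hb hm2).1
  refine half_prod hS hh (fun u => (wpC b u - wpC b (2 * u)) / (wpC b z - wpC b u)) fun u _ => ⟨?_, fun l hl => ?_⟩
  · rw [wp_ev hb, wp_ev2 hb]
  · rw [wp_per hb hl, wp_per2 hb hl]

theorem thC_ev [SqN n t] {m b : Ideal (OO n t)} (hb : b ≠ ⊥) (z : ℂ) :
    ThC m b (-z) = ThC m b z := by
  unfold ThC
  rw [wp_ev hb]

theorem thC_per [SqN n t] {m b : Ideal (OO n t)} (hb : b ≠ ⊥) {z l : ℂ} (hl : l ∈ Lam b) :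
    ThC m b (z + l) = ThC m b z := by
  unfold ThC
  rw [wp_per hb hl]

theorem ne_sp {α : OO n t} (hα : α ≠ 0) : sp α ≠ ⊥ := by
  intro h
  exact hα (Ideal.span_singleton_eq_bot.1 h)

theorem thC_hom [SqN n t] {m b : Ideal (OO n t)} (hm : m ≠ ⊥) (hb : b ≠ ⊥) (hm2 : PrI m 2) {α : OO n t}
    (hα : α ≠ 0) (z : ℂ) : ThC m (sp α * b) z = ThC m b (toC α * z) := by
  classical
  have hab : sp α * b ≠ ⊥ := mul_ne_zero (ne_sp hα) hb
  have hh' := (aB14 n t m (sp α * b) hm hab hm2).1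
  have h1 := (DS.sHsP n t m b hm hb hm2).2.1 α (hs m (sp α * b)) hα hh'
  rw [← thC_half hm hb hm2 h1 (toC α * z), ← thC_half hm hab hm2 hh' z,
    Finset.prod_image (fun x _ y _ hxy => mul_left_cancel₀ (toC_ne hα) hxy)]
  refine Finset.prod_congr rfl fun u _ => ?_
  have hB := ((aB7 n t b hb).1 α hα).1
  rw [(hB u).1, (hB z).1, (hB (2 * u)).1]
  have e : toC α * (2 * u) = 2 * (toC α * u) := by ring
  rw [e, ← mul_sub, ← mul_sub, mul_div_mul_left _ _ (pow_ne_zero 2 (toC_ne hα))]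

/-- The points of order dividing `m`, `m` prime to `6`. -/
theorem three_u [SqN n t] {m b : Ideal (OO n t)} (hm3 : PrI m 3) {u : ℂ} (hu : u ∈ Lam (m * b))
    (h : 3 * u ∈ Lam b) : u ∈ Lam b :=
  lam_of_pri hm3 hu (by exact_mod_cast h)

theorem two_u [SqN n t] {m b : Ideal (OO n t)} (hm2 : PrI m 2) {u : ℂ} (hu : u ∈ Lam (m * b))
    (h : 2 * u ∈ Lam b) : u ∈ Lam b := lam_of_odd hm2 hu h

theorem thC_ne [SqN n t] {m b : Ideal (OO n t)} (hm : m ≠ ⊥) (hb : b ≠ ⊥) (hm2 : PrI m 2) (hm3 : PrI m 3)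
    {z : ℂ} (hz : z ∉ Lam (m * b)) : ThC m b z ≠ 0 := by
  have hh := (aB14 n t m b hm hb hm2).1
  have hinj := (aB1 n t b hb).2.2.2.1
  refine Finset.prod_ne_zero_iff.2 fun u hu => ?_
  obtain ⟨h1, h2⟩ := hh.mem u hu
  have hzb : z ∉ Lam b := fun h => hz (lam_mono h)
  have h2u : 2 * u ∉ Lam b := fun h => h2 (two_u hm2 h1 h)
  refine div_ne_zero (sub_ne_zero.2 fun h => ?_) (sub_ne_zero.2 fun h => ?_)
  · rcases (hinj u (2 * u) h2 h2u).1 h with h3 | h3
    · apply h2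
      have e : u = -(u - 2 * u) := by ring
      rw [e]
      exact lam_neg h3
    · apply h2
      refine three_u hm3 h1 ?_
      have e : 3 * u = u + 2 * u := by ring
      rw [e]
      exact h3
  · rcases (hinj z u hzb h2).1 h with h3 | h3
    · apply hz
      have e : z = z - u + u := by ring
      rw [e]
      exact lam_add (lam_mono h3) h1
    · apply hz
      have e : z = z + u - u := by ring
      rw [e]
      exact lam_sub (lam_mono h3) h1

/-- The distribution relation over `ℂ`. -/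
theorem thC_dis [SqN n t] {l m b : Ideal (OO n t)} (hl : l ≠ ⊥) (hm : m ≠ ⊥) (hb : b ≠ ⊥) (hm2 : PrI m 2)
    (hm3 : PrI m 3) (hlm : l ⊔ m = ⊤) {R : Finset ℂ} (hR : IsSys l b R) :
    ∃ C : ℂ, C ≠ 0 ∧ ∀ z : ℂ, z ∉ Lam (l * m * b) → ∏ v ∈ R, ThC m b (z + v) = C * ThC m (l * b) z := by
  obtain ⟨c, hc, h⟩ := aB16 n t l m b hl hm hb hm2 hlm R hR
  have hlb : l * b ≠ ⊥ := mul_ne_zero hl hb
  -- the numerators
  have num : ∀ b' : Ideal (OO n t), b' ≠ ⊥ → ∏ u ∈ hs m b', (wpC b' u - wpC b' (2 * u)) ≠ 0 := by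
    intro b' hb'
    have hh := (aB14 n t m b' hm hb' hm2).1
    have hinj := (aB1 n t b' hb').2.2.2.1
    refine Finset.prod_ne_zero_iff.2 fun u hu => sub_ne_zero.2 fun h => ?_
    obtain ⟨h1, h2⟩ := hh.mem u hu
    have h2u : 2 * u ∉ Lam b' := fun h => h2 (two_u hm2 h1 h)
    rcases (hinj u (2 * u) h2 h2u).1 h with h3 | h3
    · apply h2
      have e : u = -(u - 2 * u) := by ring
      rw [e]
      exact lam_neg h3
    · apply h2
      refine three_u hm3 h1 ?_
      have e : 3 * u = u + 2 * u := by ring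
      rw [e]
      exact h3
  set A := ∏ u ∈ hs m b, (wpC b u - wpC b (2 * u)) with hA
  set B := ∏ u ∈ hs m (l * b), (wpC (l * b) u - wpC (l * b) (2 * u)) with hB
  have hA0 : A ≠ 0 := num b hb
  have hB0 : B ≠ 0 := num (l * b) hlb
  refine ⟨A ^ R.card / (c * B), div_ne_zero (pow_ne_zero _ hA0) (mul_ne_zero hc hB0), fun z hz => ?_⟩
  have e1 : ∀ v : ℂ, ThC m b (z + v) = A / ∏ u ∈ hs m b, (wpC b (z + v) - wpC b u) := by
    intro v
    unfold ThC
    rw [Finset.prod_div_distrib]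
  have e2 : ThC m (l * b) z = B / ∏ u ∈ hs m (l * b), (wpC (l * b) z - wpC (l * b) u) := by
    unfold ThC
    rw [Finset.prod_div_distrib]
  rw [Finset.prod_congr rfl fun v _ => e1 v, Finset.prod_div_distrib, Finset.prod_const, h z hz, e2]
  rw [div_mul_div_comm, mul_assoc c B, mul_comm B, ← mul_assoc c, mul_div_mul_right _ _ hB0]

end Dh

end Pool.Agent.DM
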