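import Pool.Agent.Lib.DM.Iface
import Pool.Agent.Lib.DM.D.Thc
import Pool.Agent.Lib.DS.IfaceD

/-!
# Theorem DM (`p = 3`), part D: `S_D8` (helper58)
-/

set_option autoImplicit false

open scoped Pointwise nonZeroDivisors

noncomputable section

namespace Pool.Agent.DM

open Pool.Agent.MuZ Pool.Agent.FW Pool.Agent.DN NumberField IsDedekindDomain
open Pool.Agent.DI (io ofC io_inj exists_io io_ofC ofC_io VP MP UP TP ex)

namespace Dh

variable {n t : ℕ}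

theorem pri_dvd {a : Ideal (OO n t)} {N M : ℕ} (h : PrI a N) (hM : M ∣ N) : PrI a M := Eb.pri_dvd h hM

theorem p2 {a : Ideal (OO n t)} (h : PrI a 30) : PrI a 2 := Eb.pri_dvd h ⟨15, rfl⟩
theorem p3 {a : Ideal (OO n t)} (h : PrI a 30) : PrI a 3 := Eb.pri_dvd h ⟨10, rfl⟩
theorem p15 {a : Ideal (OO n t)} (h : PrI a 30) : PrI a 15 := Eb.pri_dvd h ⟨2, rfl⟩
theorem g15 {b : Ideal (OO n t)} (h : G30 b) : G15 b := ⟨h.ne, p15 h.cop⟩
theorem g30_mul [SqN n t] {a b : Ideal (OO n t)} (ha : a ≠ ⊥) (ha' : PrI a 30) (hb : G30 b) : G30 (a * b) :=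
  ⟨mul_ne_zero ha hb.ne, Eb.pri_mul ha' hb.cop⟩

theorem io_x [SqN n t] (hR1 : S_R1) {b : Ideal (OO n t)} (hb : G30 b) {z : ℂ} (hz : Tor n t z) :
    io (xO b z) = XC b z := (((hR1 n t).1 b hb).2.2.1 z hz).1

theorem io_v [SqN n t] (hR1 : S_R1) {b : Ideal (OO n t)} (hb : G30 b) {z : ℂ} (hz : Tor n t z) :
    io (vO b z) = WC b z := (((hR1 n t).1 b hb).2.2.1 z hz).2

theorem io_x' [SqN n t] (hR1 : DS.S_R1) {b : Ideal (OO n t)} (hb : G15 b) {z : ℂ} (hz : Tor n t z) :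
    io (DN.xO b z) = DN.XC b z := (((hR1.1 n t).1 b hb).2.2.1 z hz).1

/-- Any coordinate. -/
theorem quo {e s a b c d : ℂ} (hs : s ≠ 0) :
    ((a - e) / s - (b - e) / s) * ((c - e) / s - (d - e) / s)⁻¹ = (a - b) / (c - d) := by
  have h1 : (a - e) / s - (b - e) / s = (a - b) / s := by ring
  have h2 : (c - e) / s - (d - e) / s = (c - d) / s := by ring
  rw [h1, h2, ← div_eq_mul_inv, div_div_div_cancel_right₀ hs]

theorem tor_half_mem [SqN n t] {m b : Ideal (OO n t)} (hm : m ≠ ⊥) (hb : b ≠ ⊥) {S : Finset ℂ}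
    (hS : IsHalf m b S) {u : ℂ} (hu : u ∈ S) : Tor n t u ∧ Tor n t (2 * u) := by
  have h1 : Tor n t u := tor_lam (mul_ne_zero hm hb) (hS.mem u hu).1
  exact ⟨h1, tor_two h1⟩

/-- `Theta` in the model of `DM`. -/
theorem io_prod [SqN n t] (hR1 : S_R1) {m b : Ideal (OO n t)} (hm : m ≠ ⊥) (hb : G30 b) (hm2 : PrI m 2)
    {S : Finset ℂ} (hS : IsHalf m b S) {z : ℂ} (hz : Tor n t z) (hf : fr b ≠ 0) :
    io (∏ u ∈ S, ((xO b u - xO b (2 * u)) * (xO b z - xO b u)⁻¹)) = ThC m b z := by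
  rw [← thC_half hm hb.ne hm2 hS z, map_prod]
  refine Finset.prod_congr rfl fun u hu => ?_
  obtain ⟨t1, t2⟩ := tor_half_mem hm hb.ne hS hu
  rw [map_mul, map_inv₀, map_sub, map_sub, io_x hR1 hb t1, io_x hR1 hb t2, io_x hR1 hb hz]
  unfold XC
  exact quo (pow_ne_zero 2 hf)

/-- `Theta` in the model of `DN`. -/
theorem io_prod' [SqN n t] (hR1 : DS.S_R1) {m b : Ideal (OO n t)} (hm : m ≠ ⊥) (hb : G15 b) (hm2 : PrI m 2)
    {S : Finset ℂ} (hS : IsHalf m b S) {z : ℂ} (hz : Tor n t z) :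
    io (∏ u ∈ S, ((DN.xO b u - DN.xO b (2 * u)) * (DN.xO b z - DN.xO b u)⁻¹)) = ThC m b z := by
  have hf : DN.fr b ≠ 0 := ((aB1 n t b hb.ne).2.2.2.2.2 hb.cop).1
  rw [← thC_half hm hb.ne hm2 hS z, map_prod]
  refine Finset.prod_congr rfl fun u hu => ?_
  obtain ⟨t1, t2⟩ := tor_half_mem hm hb.ne hS hu
  rw [map_mul, map_inv₀, map_sub, map_sub, io_x' hR1 hb t1, io_x' hR1 hb t2, io_x' hR1 hb hz]
  unfold DN.XC
  exact quo (pow_ne_zero 2 hf)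

/-- `Theta` is algebraic. -/
theorem io_th [SqN n t] (hR1 : DS.S_R1) {m b : Ideal (OO n t)} (hm : m ≠ ⊥) (hb : G15 b) (hm2 : PrI m 2)
    {z : ℂ} (hz : Tor n t z) : io (Theta m b z) = ThC m b z := by
  have h := io_prod' hR1 hm hb hm2 (aB14 n t m b hm hb.ne hm2).1 hz
  unfold Theta
  rw [← h, ofC_io]

theorem th_prod' [SqN n t] (hR1 : DS.S_R1) {m b : Ideal (OO n t)} (hm : m ≠ ⊥) (hb : G15 b) (hm2 : PrI m 2)
    {S : Finset ℂ} (hS : IsHalf m b S) {z : ℂ} (hz : Tor n t z) :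
    Theta m b z = ∏ u ∈ S, ((DN.xO b u - DN.xO b (2 * u)) * (DN.xO b z - DN.xO b u)⁻¹) := by
  apply io_inj
  rw [io_th hR1 hm hb hm2 hz, io_prod' hR1 hm hb hm2 hS hz]

end Dh

/-- **D8.** -/
theorem sD8 (hB1 : S_B1) (hR1 : S_R1) (hR1' : DS.S_R1) : S_D8 := by
  intro n t _ m b hm hb hm30
  have hm2 := Dh.p2 hm30
  have hm3 := Dh.p3 hm30
  refine ⟨fun S hS z => Dh.thC_half hm hb hm2 hS z, fun z => ⟨Dh.thC_ev hb z, fun l hl => Dh.thC_per hb hl⟩,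
    fun α z hα => Dh.thC_hom hm hb hm2 hα z, fun z hz => Dh.thC_ne hm hb hm2 hm3 hz, ?_⟩
  intro hG S hS z hz hzm
  have hio := Dh.io_th hR1' hm (Dh.g15 hG) hm2 hz
  refine ⟨?_, ?_, Dh.th_prod' hR1' hm (Dh.g15 hG) hm2 hS hz⟩
  · intro h0
    rw [h0, map_zero] at hio
    exact Dh.thC_ne hm hb hm2 hm3 hzm hio.symm
  · apply io_inj
    rw [hio, Dh.io_prod hR1 hm hG hm2 hS hz (hB1 n t b hb (Dh.p2 hG.cop)).1]

end Pool.Agent.DM
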