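import Pool.Agent.Lib.DM.D.R2
import Pool.Agent.Lib.DM.D.D5
import Pool.Agent.Lib.DM.D.D6
import Pool.Agent.Lib.DM.D.D7
import Pool.Agent.Lib.DM.D.D8
import Pool.Agent.Lib.DM.D.D10

/-!
# Theorem DM, part D: `S_D5` - `S_D10` without hypotheses (helper58)
-/

set_option autoImplicit false

noncomputable section

namespace Pool.Agent.DM

theorem zD5 : S_D5 := sD5 DS.zR1 DS.zGQ DS.zD1 DS.zLgK
theorem zD6 : S_D6 := sD6 DS.zXOm DS.zR1 DS.zD1 DS.yD3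
theorem zD7 : S_D7 := sD7 DS.zXOm DS.zR1 DS.zGQ DS.zD1 DS.yD3
theorem zD8 : S_D8 := sD8 aB1 zR1 DS.zR1
theorem zD9 : S_D9 := sD9 zXOm zD1 zD2
theorem zD10 : S_D10 := sD10 zXOm zR2 zD1 zD2

end Pool.Agent.DM
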