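import Pool.Agent.Lib.DM.D.Good
import Pool.Agent.Lib.DS.R.VO

/-!
# Theorem DM, part D: `S_D1`, the kernel of reduction of the model by `1/4` (helper67)
-/

set_option autoImplicit false

open scoped Pointwise nonZeroDivisors

noncomputable section

namespace Pool.Agent.DM

open Pool.Agent.MuZ Pool.Agent.FW NumberField IsDedekindDomain
open Pool.Agent.DI (io ofC io_inj exists_io io_ofC ofC_io VP MP UP TP ex)
open Pool.Agent.DN

section

variable {n t : ℕ} [SqN n t] {Q : Ideal ZZ} {V : ValuationSubring ℂ}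

theorem io_xO (R1 : S_R1) {b : Ideal (OO n t)} (hG : G30 b) {z : ℂ} (hz : Tor n t z) :
    io (xO b z) = xx b (wpC b (1 / 2)) (fr b ^ 2) z := (((R1 n t).1 b hG).2.2.1 z hz).1

theorem ikM (R1 : S_R1) (h : VQ Q V) {b : Ideal (OO n t)} (hG : G30 b) {z : ℂ} :
    IK Q b z ↔ Tor n t z ∧ Kr V.valuation (Lam b) (xx b (wpC b (1 / 2)) (fr b ^ 2)) z := by
  unfold IK Kr
  constructor
  · rintro ⟨h1, h2⟩
    refine ⟨h1, h2.imp_right fun h3 => ?_⟩
    rw [← io_xO R1 hG h1]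
    exact (h.gt _).2 h3
  · rintro ⟨h1, h2⟩
    refine ⟨h1, h2.imp_right fun h3 => ?_⟩
    rw [← io_xO R1 hG h1] at h3
    exact (h.gt _).1 h3

/-- Differences of values of `X`. -/
theorem xsubM (R1 : S_R1) (h : VQ Q V) {b : Ideal (OO n t)} (hG : G30 b) {z z' : ℂ}
    (hz : Tor n t z) (hz' : Tor n t z') : MP Q (xO b z - xO b z') ↔
      V.valuation (xx b (wpC b (1 / 2)) (fr b ^ 2) z - xx b (wpC b (1 / 2)) (fr b ^ 2) z') < 1 := by
  rw [← io_xO R1 hG hz, ← io_xO R1 hG hz', ← map_sub, h.lt]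

end

theorem tD1 (R1 : S_R1) : S_D1 := by
  intro n t _ Q hQ h2 b hG
  obtain ⟨V, hV⟩ := exists_VQ hQ
  have hb := hG.ne
  haveI := hQ.1
  have hv := hV.two hQ h2
  obtain ⟨-, -, hg⟩ := good_x (v := V.valuation) hv hG.ne hG.p2
  have hK := sVCrd n t _ V.valuation b _ _ hb hg.toICd
  have hmul : ∀ (v : OO n t) (z : ℂ), IK Q b z → IK Q b (toC v * z) := by
    intro v z hz
    rw [ikM R1 hV hG] at hz ⊢
    exact ⟨tor_mul v hz.1, DS.kr_mul hv hb hg v hz.2⟩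
  refine ⟨?_, ?_, hmul, ?_, ?_, ?_, ?_⟩
  · intro z z' hz hz'
    rw [ikM R1 hV hG] at hz hz' ⊢
    exact ⟨tor_add hz.1 hz'.1, hK.kr_add hz.2 hz'.2⟩
  · intro z hz
    exact ⟨tor_lam hb hz, Or.inl hz⟩
  · intro a z ha ha30 hz
    have hG' : G30 (a * b) := ⟨mul_ne_zero ha hG.ne, Eb.pri_mul ha30 hG.cop⟩
    rw [ikM R1 hV hG] at hz
    rw [ikM R1 hV hG']
    obtain ⟨-, -, hg'⟩ := good_x (v := V.valuation) hv hG'.ne hG'.p2
    obtain ⟨T, T', hT⟩ := ex_ord2 hG.ne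
    exact ⟨hz.1, kr_up hv ha hG.ne (Eb.pri_dvd ha30 ⟨15, rfl⟩) hg hg' hT hz.2⟩
  · intro z hz α β hα hαβ
    have h1 := hmul β z hz
    rw [ikM R1 hV hG] at h1
    have hαv := hV.tc hQ hα
    rw [toC_mul, mul_assoc] at hαβ
    exact DS.kr_unit' hv hb hg α _ hαv h1.2 hαβ
  · intro z z' hz hzn hz'
    rw [ikM R1 hV hG] at hz'
    rw [xsubM R1 hV hG (tor_add hz hz'.1) hz]
    refine hK.red (fun h => hzn ?_) hz'.2
    rw [ikM R1 hV hG]
    exact ⟨hz, h⟩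
  · intro z z' hz hz' hzn hzn' hm
    rw [xsubM R1 hV hG hz hz'] at hm
    have n1 : ¬ Kr V.valuation (Lam b) (xx b (wpC b (1 / 2)) (fr b ^ 2)) z := fun h => hzn (by
      rw [ikM R1 hV hG]; exact ⟨hz, h⟩)
    have n2 : ¬ Kr V.valuation (Lam b) (xx b (wpC b (1 / 2)) (fr b ^ 2)) z' := fun h => hzn' (by
      rw [ikM R1 hV hG]; exact ⟨hz', h⟩)
    rw [ikM R1 hV hG, ikM R1 hV hG]
    rcases hK.sep hg.ds n1 n2 hm with h | h
    · exact Or.inl ⟨tor_add hz hz', h⟩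
    · exact Or.inr ⟨tor_sub hz hz', h⟩

end Pool.Agent.DM
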