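import Pool.Agent.Lib.DM.D.D1
import Pool.Agent.Lib.DM.E.XOm
import Pool.Agent.Lib.DN.R.KmG

/-!
# Theorem DM: `S_D2` for all `K` in which `3` does not split, and the second clause of `S_R2` (helper46)
-/

set_option autoImplicit false

open scoped Pointwise nonZeroDivisors

noncomputable section

namespace Pool.Agent.DM

open Pool.Agent.MuZ Pool.Agent.FW NumberField IsDedekindDomain
open Pool.Agent.DI (io ofC io_inj exists_io io_ofC ofC_io VP MP UP TP ex)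
open Pool.Agent.DN

theorem v_cop3 {Γ : Type} [LinearOrderedCommGroupWithZero Γ] {v : Valuation ℂ Γ} (hv : v 3 < 1) {m : ℕ}
    (hm : Nat.Coprime m 3) : v (m : ℂ) = 1 := by
  obtain ⟨x, y, hxy⟩ := Nat.isCoprime_iff_coprime.2 hm
  have e1 : (1 : ℂ) = (x : ℂ) * (m : ℂ) + (y : ℂ) * 3 := by
    have := congrArg (fun u : ℤ => (u : ℂ)) hxy
    push_cast at this
    exact this.symm
  refine le_antisymm (vnat v m) (not_lt.1 fun h => ?_)
  have : v (1 : ℂ) < 1 := by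
    rw [e1]
    exact madd (mmul (vint v x) h) (mmul (vint v y) hv)
  rw [v.map_one] at this
  exact lt_irrefl _ this

theorem VQ3 {P : Ideal ZZ} (hP : Ab3 P) {V : ValuationSubring ℂ} (hV : VQ P V) :
    V.valuation 3 < 1 ∧ V.valuation 2 = 1 := by
  have h3 := (hV.lt 3).2 hP.2
  rw [map_ofNat] at h3
  refine ⟨h3, ?_⟩
  have := v_cop3 h3 (m := 2) (by norm_num)
  exact_mod_cast this

section

variable {n t : ℕ}

/-- The coordinate `X` above three, `3` not split. -/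
theorem nsp_good [Nsp n t] {P : Ideal ZZ} (hP : Ab3 P) {V : ValuationSubring ℂ} (hV : VQ P V)
    {b : Ideal (OO n t)} (hG : G30 b) :
    GCd V.valuation b (wpC b (1 / 2)) (fr b ^ 2) ∧ V.valuation (cC b + 1) < 1 ∧ V.valuation (cC b) = 1 ∧
    V.valuation (1 - 8 * cC b) < 1 ∧
    KLn V.valuation (Lam b) (xx b (wpC b (1 / 2)) (fr b ^ 2)) (1 - 8 * cC b) (2 * cC b ^ 2) 0 (-cC b ^ 4) ∧
    V.valuation (DN.dsc (1 - 8 * cC b) (2 * cC b ^ 2) 0 (-cC b ^ 4)) = 1 := by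
  obtain ⟨h3, h2⟩ := VQ3 hP hV
  obtain ⟨vc, -, hg⟩ := good_x h2 hG.ne hG.p2
  obtain ⟨e2, e4, e6, e8, -, -⟩ := x_c hG.ne hG.p2
  have hs := ss3_c2 (Nsp.nsp (n := n) (t := t)) h3 hG.ne hg
  have hK := sVCrd n t _ V.valuation b _ _ hG.ne hg.toICd
  have hd := hg.ds
  rw [e2] at hs
  rw [e2, e4, e6, e8] at hK hd
  refine ⟨hg, ?_, vc, hs, hK, hd⟩
  have : cC b + 1 = (1 - 8 * cC b) + 3 * (3 * cC b) := by ring
  rw [this]
  exact madd hs (mmulr h3 (vmul (vof _ 3) vc.le))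

/-- `S_R2`, second clause. -/
theorem cR2n (R1 : S_R1) [Nsp n t] {P : Ideal ZZ} (hP : Ab3 P) {b : Ideal (OO n t)} (hG : G30 b) :
    MP P (cO b + 1) := by
  obtain ⟨V, hV⟩ := exists_VQ hP.1
  obtain ⟨-, h, -⟩ := nsp_good hP hV hG
  refine (hV.lt _).1 ?_
  rw [map_add, map_one, ((R1 n t).1 b hG).1]
  exact h

/-- The quotients of the framings above three. -/
theorem rO_unit3 (R1 : S_R1) [SqN n t] {P : Ideal ZZ} (hP : Ab3 P) {b : Ideal (OO n t)} (hG : G30 b)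
    {a : Ideal (OO n t)} (ha : a ≠ ⊥) (ha30 : PrI a 30) : UP P (rO b (a * b)) := by
  obtain ⟨V, hV⟩ := exists_VQ hP.1
  obtain ⟨h3, h2⟩ := VQ3 hP hV
  have hG' : G30 (a * b) := ⟨mul_ne_zero ha hG.ne, Eb.pri_mul ha30 hG.cop⟩
  obtain ⟨-, -, hg⟩ := good_x h2 hG.ne hG.p2
  obtain ⟨-, -, hg'⟩ := good_x h2 hG'.ne hG'.p2
  have hva : V.valuation (NI a : ℂ) = 1 := by
    refine v_cop3 h3 ?_
    have := ((aO6 n t).2.2.1 30 a (by norm_num)).1 ha30
    exact Nat.Coprime.coprime_dvd_right (by norm_num) this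
  have h1 := scale_eq ha hG.ne hva hg hg'
  have hf : fr b ^ 2 ≠ 0 := hg.ne
  refine (hV.eq _).1 ?_
  rw [(((R1 n t).1 b hG).2.2.2 (a * b) hG').1]
  refine uof_pow two_ne_zero ?_
  rw [div_pow, map_div₀, h1]
  exact div_self ((V.valuation.ne_zero_iff).2 hf)

end

/-- `S_D2` for all `K` in which `3` does not split. -/
def S_D2n : Prop :=
  ∀ (n t : ℕ) [Nsp n t] (P : Ideal ZZ), Ab3 P → ∀ b : Ideal (OO n t), G30 b →
    (∀ (z : ℂ) (j : ℕ), (3 : ℂ) ^ j * z ∈ Lam b → IK P b z) ∧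
    (∀ z : ℂ, Tor n t z → (IK P b (3 * z) ↔ IK P b z)) ∧
    (∀ z : ℂ, Tor n t z → ¬ IK P b z → MP P (xO b (3 * z) - xO b z ^ 9)) ∧
    (∀ z : ℂ, Tor n t z → ¬ IK P b z → VP P (xO b z) ∧ VP P (vO b z)) ∧
    (∀ z : ℂ, Tor n t z → ¬ IK P b (2 * z) → UP P (vO b z)) ∧
    (∀ z : ℂ, Tor n t z → ¬ Qp P b z → ¬ IK P b z) ∧
    (∀ z z' : ℂ, Tor n t z → Tor n t z' → ¬ IK P b z → ¬ IK P b z' → ¬ Qp P b (z + z') →
      ¬ Qp P b (z - z') → UP P (xO b z - xO b z')) ∧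
    ∀ a : Ideal (OO n t), a ≠ ⊥ → PrI a 30 → UP P (rO b (a * b))

theorem tD2n (R1 : S_R1) (hX : S_XOm) : S_D2n := by
  intro n t _ P hP b hG
  haveI := hP.1.1
  obtain ⟨V, hV⟩ := exists_VQ hP.1
  obtain ⟨h3, h2⟩ := VQ3 hP hV
  obtain ⟨hg, hc1, vc, vb2, hK, hd⟩ := nsp_good hP hV hG
  have hb := hG.ne
  have hns := Nsp.nsp (n := n) (t := t)
  have hn2 : ¬ MP P 2 := fun h => by
    have := hV.two_lt h
    rw [h2] at this
    exact lt_irrefl _ this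
  have hd1 := tD1 R1 n t P hP.1 hn2 b hG
  have hQp : ∀ z : ℂ, Tor n t z → ¬ Qp P b z → ¬ IK P b z := fun z _ h h' => h (hd1.2.2.2.2.1 z h')
  have hnk : ∀ {z : ℂ}, Tor n t z → ¬ IK P b z →
      ¬ Kr V.valuation (Lam b) (xx b (wpC b (1 / 2)) (fr b ^ 2)) z := fun ht h h' =>
    h ((ikM R1 hV hG).2 ⟨ht, h'⟩)
  have hcrvC : ∀ z : ℂ, z ∉ Lam b → WC b z ^ 2 = 4 * xx b (wpC b (1 / 2)) (fr b ^ 2) z ^ 3 +
      (1 - 8 * cC b) * xx b (wpC b (1 / 2)) (fr b ^ 2) z ^ 2 +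
        2 * (2 * cC b ^ 2) * xx b (wpC b (1 / 2)) (fr b ^ 2) z + 0 := by
    intro z hz
    have := (tBC hb hG.p2).crv z hz
    have e : xx b (wpC b (1 / 2)) (fr b ^ 2) z = XC b z := rfl
    rw [e, this]
    ring
  have iov : ∀ {z : ℂ}, Tor n t z → io (vO b z) = WC b z := fun hz => (((R1 n t).1 b hG).2.2.1 _ hz).2
  refine ⟨?_, ?_, ?_, ?_, ?_, hQp, ?_, ?_⟩
  · intro z j hj
    rw [ikM R1 hV hG]
    exact ⟨(tor_iff hb).2 ⟨3 ^ j, by positivity, by exact_mod_cast hj⟩, ss_three hns h3 hb hg j z hj⟩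
  · intro z hz
    constructor
    · intro h
      rw [ikM R1 hV hG] at h ⊢
      exact ⟨hz, three_div hns h3 hb hg h.2⟩
    · intro h
      have := hd1.2.2.1 3 z h
      rwa [toC_three] at this
  · intro z hz hzk
    have h9 := hK.nine hd h3 hc1 (hnk hz hzk)
    have e : z + z + z = 3 * z := by ring
    rw [e] at h9
    refine (hV.lt _).1 ?_
    have ht3 : Tor n t (3 * z) := by
      have := tor_mul (3 : OO n t) hz
      rwa [toC_three] at this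
    rw [map_sub, map_pow, io_xO R1 hG hz, io_xO R1 hG ht3]
    exact h9
  · intro z hz hzk
    have hvx : VP P (xO b z) := by
      by_contra h
      exact hzk ⟨hz, Or.inr h⟩
    refine ⟨hvx, ?_⟩
    have hzl : z ∉ Lam b := fun h => hzk ⟨hz, Or.inl h⟩
    have hcv : VP P (cO b) := by
      refine (hV.le _).1 ?_
      rw [((R1 n t).1 b hG).1]
      exact vc.le
    refine DI.VP.of_pow (n := 2) two_pos ?_
    rw [(hX n t b hG).crv z hz hzl]
    have v4 : VP P (4 : Om) := by exact_mod_cast DI.VP.nat (P := P) 4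
    have v8 : VP P (8 : Om) := by exact_mod_cast DI.VP.nat (P := P) 8
    exact ((v4.mul (hvx.pow 3)).add ((DI.VP.one.sub (v8.mul hcv)).mul (hvx.pow 2))).add
      ((v4.mul (hcv.pow 2)).mul hvx)
  · intro z hz h2z
    have ht2 : Tor n t (2 * z) := by
      have := tor_mul (2 : OO n t) hz
      rwa [toC_two] at this
    have h2k := hnk ht2 h2z
    have e : 2 * z = z + z := by ring
    rw [e] at h2k
    obtain ⟨hzk, hF⟩ := hK.f3 hd h3 vb2 h2k
    refine (hV.eq _).1 ?_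
    rw [iov hz]
    refine uof_pow two_ne_zero ?_
    rw [hcrvC z fun h => hzk (Or.inl h)]
    exact hF
  · intro z z' hz hz' hzk hzk' hq1 hq2
    have hnk1 := hnk hz hzk
    have hnk2 := hnk hz' hzk'
    refine (hV.eq _).1 ?_
    have c1 : V.valuation (xx b (wpC b (1 / 2)) (fr b ^ 2) z) ≤ 1 := not_lt.1 fun h => hnk1 (Or.inr h)
    have c2 : V.valuation (xx b (wpC b (1 / 2)) (fr b ^ 2) z') ≤ 1 := not_lt.1 fun h => hnk2 (Or.inr h)
    rw [map_sub, io_xO R1 hG hz, io_xO R1 hG hz']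
    refine le_antisymm (vsub c1 c2) (not_lt.1 fun hlt => ?_)
    have hmp : MP P (xO b z - xO b z') := (xsubM R1 hV hG hz hz').2 hlt
    rcases hd1.2.2.2.2.2.2 z z' hz hz' hzk hzk' hmp with h | h
    · exact hQp _ (tor_add hz hz') hq1 h
    · exact hQp _ (tor_sub hz hz') hq2 h
  · exact fun a ha ha30 => rO_unit3 R1 hP hG ha ha30

theorem tD2 (R1 : S_R1) (hX : S_XOm) : S_D2 := fun n t _ P hP b hG => tD2n R1 hX n t P hP b hG

end Pool.Agent.DM
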