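import Pool.Agent.Lib.DM.Iface
import Pool.Agent.Lib.DM.D.D8

/-!
# Theorem DM (`p = 3`), part D: the function `g` at the primes above `3` (module `D9`; helper58)
-/

set_option autoImplicit false

open scoped Pointwise nonZeroDivisors

noncomputable section

namespace Pool.Agent.DM

open Pool.Agent.MuZ Pool.Agent.FW Pool.Agent.DN NumberField IsDedekindDomain
open Pool.Agent.DI (io ofC io_inj exists_io io_ofC ofC_io VP MP UP TP ex)

namespace Dh

variable {n t : ℕ}

/-- Integers prime to `3` are units above `3`. -/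
theorem nat_up {P : Ideal ZZ} (hP : Ab3 P) {j : ℕ} (hj : j.Coprime 3) : ¬ MP P (j : Om) := by
  have := hP.1.1
  intro h
  obtain ⟨a, b, hab⟩ := Nat.isCoprime_iff_coprime.2 hj
  apply DI.MP.one_not (P := P)
  have e : (1 : Om) = a * j + b * 3 := by
    have := congrArg (fun x : ℤ => (x : Om)) hab
    push_cast at this
    exact this.symm
  rw [e]
  exact (DI.MP.mul_left (DI.VP.int a) h).add (DI.MP.mul_left (DI.VP.int b) hP.2)

/-- The norm annihilates. -/
theorem ni_mul [SqN n t] {m b : Ideal (OO n t)} {u : ℂ} (hu : u ∈ Lam (m * b)) : (NI m : ℂ) * u ∈ Lam b := by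
  have h1 : ((NI m : ℕ) : OO n t) ∈ m := by
    have h2 : ((NI m : ℕ) : OO n t) ∈ m * cjI m := by
      rw [((aO3 n t).2.2.1 m).2.2]
      exact Ideal.mem_span_singleton_self _
    have h4 : m * cjI m ≤ m := Ideal.mul_le_left
    exact h4 h2
  have h3 := lam_prod.1 hu _ h1
  rwa [toC_nat] at h3

/-- Points of order prime to `3` are not primary at the primes above `3`. -/
theorem not_qp [SqN n t] {P : Ideal ZZ} (hP : Ab3 P) {m b : Ideal (OO n t)} (hm3 : PrI m 3) {u : ℂ}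
    (hu : u ∈ Lam (m * b)) (hu' : u ∉ Lam b) : ¬ Qp P b u := by
  intro h
  apply hu'
  have h1 := h (NI m : OO n t) 1 (by
    rw [toO_nat]
    exact nat_up hP (((aO6 n t).2.2.1 3 m (by norm_num)).1 hm3)) (by
    rw [mul_one, toC_nat]
    exact ni_mul hu)
  rwa [toC_one, one_mul] at h1

theorem qp_zero {P : Ideal ZZ} {b : Ideal (OO n t)} : Qp P b 0 := by
  intro α β _ _
  rw [mul_zero]
  exact lam_zero b

/-- The function `g`, from the properties of the reduction. -/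
theorem d9_core [SqN n t] (hX : S_XOm) (hD1 : S_D1) {P : Ideal ZZ} (hP : Ab3 P) (h2P : ¬ MP P 2)
    {m b : Ideal (OO n t)} (hm : m ≠ ⊥) (hb : G30 b) (hm30 : PrI m 30)
    (hV : ∀ z : ℂ, Tor n t z → ¬ IK P b z → VP P (xO b z) ∧ VP P (vO b z))
    (hQ : ∀ z : ℂ, Tor n t z → ¬ Qp P b z → ¬ IK P b z)
    (hU : ∀ z z' : ℂ, Tor n t z → Tor n t z' → ¬ IK P b z → ¬ IK P b z' → ¬ Qp P b (z + z') →
      ¬ Qp P b (z - z') → UP P (xO b z - xO b z')) {z : ℂ} (hz : Tor n t z)
    (hzq : ∀ u ∈ Lam (m * b), ¬ Qp P b (z + u)) :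
    VP P (gO m b z) ∧ gO m b z = ∑ u ∈ hs m b, vO b z * (xO b z - xO b u)⁻¹ := by
  have := hP.1.1
  have hH := (aB14 n t m b hm hb.ne (p2 hm30)).1
  have hmb : m * b ≠ ⊥ := mul_ne_zero hm hb.ne
  have hzm : z ∉ Lam (m * b) := fun h => hzq (-z) (lam_neg h) (by rw [add_neg_cancel]; exact qp_zero)
  have hf : gO m b z = ∑ u ∈ hs m b, vO b z * (xO b z - xO b u)⁻¹ := by
    rw [(hX n t b hb).gg m hm hm30 z hz hzm]
    exact Finset.sum_congr rfl fun u _ => div_eq_mul_inv _ _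
  refine ⟨?_, hf⟩
  have hzI : ¬ IK P b z := hQ z hz (by simpa using hzq 0 (lam_zero _))
  rw [hf]
  refine DI.VP.sum _ _ fun u hu => ?_
  obtain ⟨hu1, hu2⟩ := hH.mem u hu
  have hTu : Tor n t u := tor_lam hmb hu1
  have hIu : ¬ IK P b u := fun h => not_qp hP (p3 hm30) hu1 hu2 ((hD1 n t P hP.1 h2P b hb).2.2.2.2.1 u h)
  have h1 := hU z u hz hTu hzI hIu (hzq u hu1) (by
    have := hzq (-u) (lam_neg hu1)
    rwa [← sub_eq_add_neg] at this)
  exact (hV z hz hzI).2.mul h1.inv.1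

/-- `2` is a unit above `3`. -/
theorem two_not {P : Ideal ZZ} (hP : Ab3 P) : ¬ MP P 2 := by
  have := nat_up hP (j := 2) (by norm_num)
  exact_mod_cast this

end Dh

/-- **The function `g` at the primes above `3`** (inert case). -/
theorem sD9 (hX : S_XOm) (hD1 : S_D1) (hD2 : S_D2) : S_D9 := by
  intro n t _ P hP m b hm hb hm30 z hz hzq
  obtain ⟨-, -, -, h4, -, h6, h7, -⟩ := hD2 n t P hP b hb
  exact Dh.d9_core hX hD1 hP (Dh.two_not hP) hm hb hm30 h4 h6 h7 hz hzq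

end Pool.Agent.DM
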