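import Pool.Agent.Lib.DM.B.All
import Pool.Agent.Lib.DM.E.R1
import Pool.Agent.Lib.DN.R.PgF
import Pool.Agent.Lib.DN.D.Brg

/-!
# Theorem DM, part R: good reduction of the model by `1/4` at all primes not above `2` (helper67)
-/

set_option autoImplicit false

open scoped Pointwise nonZeroDivisors

noncomputable section

namespace Pool.Agent.DM

open Pool.Agent.MuZ Pool.Agent.FW NumberField IsDedekindDomain
open Pool.Agent.DI (io ofC io_inj exists_io io_ofC ofC_io VP MP UP TP ex)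
open Pool.Agent.DN

section

variable {n t : ℕ} [SqN n t] {Γ : Type} [LinearOrderedCommGroupWithZero Γ] {v : Valuation ℂ Γ}

/-- The numbers of the coordinate `X`. -/
theorem x_c {b : Ideal (OO n t)} (hb : b ≠ ⊥) (h2 : PrI b 2) :
    c2 (wpC b (1 / 2)) (fr b ^ 2) = 1 - 8 * cC b ∧ c4 b (wpC b (1 / 2)) (fr b ^ 2) = 2 * cC b ^ 2 ∧
    c6 b (wpC b (1 / 2)) (fr b ^ 2) = 0 ∧ c8 b (wpC b (1 / 2)) (fr b ^ 2) = -cC b ^ 4 ∧ fr b ^ 2 ≠ 0 ∧
    dsc (c2 (wpC b (1 / 2)) (fr b ^ 2)) (c4 b (wpC b (1 / 2)) (fr b ^ 2))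
      (c6 b (wpC b (1 / 2)) (fr b ^ 2)) (c8 b (wpC b (1 / 2)) (fr b ^ 2)) =
      cC b ^ 4 * (1 - 16 * cC b) := by
  have B := tBC hb h2
  have hF : fr b ≠ 0 := B.fr0
  have he := B.e2
  have hg := B.g2
  have hg3 := B.g3
  have he' : wpC b (1 / 2) = fr b ^ 2 * (1 - 8 * cC b) / 12 := by linear_combination (1 / 12 : ℂ) * he
  have hg' : (LP b).g₂ = fr b ^ 4 * ((1 - 8 * cC b) ^ 2 - 48 * cC b ^ 2) / 12 := by
    linear_combination (1 / 12 : ℂ) * hg
  have hg3' : (LP b).g₃ = fr b ^ 6 * (72 * (1 - 8 * cC b) * cC b ^ 2 - (1 - 8 * cC b) ^ 3) / 216 := by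
    linear_combination (1 / 216 : ℂ) * hg3
  have e2 : c2 (wpC b (1 / 2)) (fr b ^ 2) = 1 - 8 * cC b := by
    unfold c2
    rw [he']
    field_simp
  have e4 : c4 b (wpC b (1 / 2)) (fr b ^ 2) = 2 * cC b ^ 2 := by
    unfold c4
    rw [he', hg']
    field_simp
    ring
  have e6 : c6 b (wpC b (1 / 2)) (fr b ^ 2) = 0 := by
    unfold c6
    rw [he', hg', hg3']
    field_simp
    ring
  have e8 : c8 b (wpC b (1 / 2)) (fr b ^ 2) = -cC b ^ 4 := by
    unfold c8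
    rw [e2, e4, e6]
    ring
  refine ⟨e2, e4, e6, e8, pow_ne_zero 2 hF, ?_⟩
  rw [e2, e4, e6, e8]
  unfold DN.dsc
  ring

/-- A point of order two different from `1/2`. -/
theorem ex_ord2h {b : Ideal (OO n t)} (hb : b ≠ ⊥) (h2 : PrI b 2) : ∃ T' : ℂ, Ord2 b (1 / 2) T' := by
  have B := tBC hb h2
  obtain ⟨T, T', h⟩ := ex_ord2 hb
  have h1 : 2 * (1 / 2 : ℂ) ∈ Lam b := by
    rw [show (2 * (1 / 2) : ℂ) = 1 by norm_num]
    exact B.l1
  by_cases hT : 1 / 2 - T ∈ Lam b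
  · refine ⟨T', h1, B.half, h.t3, h.t4, fun hc => h.t5 ?_⟩
    have e : T - T' = (1 / 2 - T') - (1 / 2 - T) := by ring
    rw [e]
    exact lam_sub hc hT
  · exact ⟨T, h1, B.half, h.t1, h.t2, hT⟩

/-- GOOD REDUCTION of the coordinate `X`, `v 2 = 1`. -/
theorem good_x (hv : v 2 = 1) {b : Ideal (OO n t)} (hb : b ≠ ⊥) (h2 : PrI b 2) :
    v (cC b) = 1 ∧ v (1 - 16 * cC b) = 1 ∧ GCd v b (wpC b (1 / 2)) (fr b ^ 2) := by
  have B := tBC hb h2
  obtain ⟨e2, e4, e6, e8, hs, ed⟩ := x_c hb h2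
  obtain ⟨T', hT⟩ := ex_ord2h hb h2
  set la := xx b (wpC b (1 / 2)) (wpC b T' - wpC b (1 / 2)) (1 / 2 + T') with hla
  obtain ⟨hs0, l2, l4, -, -, -⟩ := leg_c (la := la) hb hT rfl
  obtain ⟨-, l1, l1'⟩ := leg_good hv hb hT
  rw [← hla] at l1 l1'
  set e := wpC b (1 / 2) with he
  set s := wpC b T' - e with hsd
  obtain ⟨k, hk⟩ : ∃ k : ℂ, k = fr b ^ 2 / s := ⟨_, rfl⟩
  have hks : fr b ^ 2 = k * s := by rw [hk]; field_simp
  have hk0 : k ≠ 0 := by
    rintro rfl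
    rw [zero_mul] at hks
    exact hs hks
  have r2 : k * (1 - 8 * cC b) = -4 * (1 + la) := by
    rw [← l2, ← e2, hks]
    unfold c2
    field_simp
  have r4 : k ^ 2 * (2 * cC b ^ 2) = 2 * la := by
    rw [← l4, ← e4, hks]
    unfold c4
    field_simp
  obtain ⟨x, hx⟩ : ∃ x : ℂ, x = k * cC b := ⟨_, rfl⟩
  have hxl : x ^ 2 = la := by
    rw [hx]
    linear_combination (1 / 2 : ℂ) * r4
  have hkx : k = -4 * (1 - x) ^ 2 := by
    have : k = 8 * x - 4 * (1 + x ^ 2) := by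
      rw [hxl, hx]
      linear_combination r2
    rw [this]
    ring
  have vx : v x = 1 := by
    refine uof_pow two_ne_zero ?_
    rw [hxl, l1]
  have one : v (1 : ℂ) = 1 := v.map_one
  have vx1 : v (1 - x) ≤ 1 := vsub one.le vx.le
  have vx2 : v (1 + x) ≤ 1 := vadd one.le vx.le
  have vm : v (1 - x) * v (1 + x) = 1 := by
    rw [← v.map_mul, ← l1', ← hxl]
    congr 1
    ring
  have w1 : v (1 - x) = 1 := by
    refine le_antisymm vx1 ?_
    calc (1 : Γ) = v (1 - x) * v (1 + x) := vm.symm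
      _ ≤ v (1 - x) * 1 := by gcongr
      _ = v (1 - x) := mul_one _
  have w2 : v (1 + x) = 1 := by
    rw [w1, one_mul] at vm
    exact vm
  have v4 : v (4 : ℂ) = 1 := by
    rw [show (4 : ℂ) = 2 * 2 by norm_num, v.map_mul, hv, one_mul]
  have vk : v k = 1 := by
    rw [hkx, v.map_mul, v.map_neg, v4, v.map_pow, w1, one_pow, one_mul]
  have vc : v (cC b) = 1 := by
    have h := congrArg v hx
    rw [v.map_mul, vk, one_mul, vx] at h
    exact h.symm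
  have vd : v (1 - 16 * cC b) = 1 := by
    have h : k * (1 - 16 * cC b) = -4 * (1 + x) ^ 2 := by
      have : k * (1 - 16 * cC b) = k - 16 * x := by
        rw [hx]
        ring
      rw [this, hkx]
      ring
    have h' := congrArg v h
    rw [v.map_mul, vk, one_mul, v.map_mul, v.map_neg, v4, v.map_pow, w2, one_pow, one_mul] at h'
    exact h'
  refine ⟨vc, vd, ⟨⟨hs, ?_, ?_, ?_, ?_⟩, ?_⟩⟩
  · rw [e2]
    exact vsub one.le (vmul (vof v 8) vc.le)
  · rw [e4]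
    exact vmul hv.le (vpow vc.le 2)
  · rw [e6, v.map_zero]
    exact zero_le_one
  · rw [e8, v.map_neg]
    exact vpow vc.le 4
  · rw [ed, v.map_mul, v.map_pow, vc, vd, one_pow, one_mul]

end

/-- `S_R2`, first clause: `c` and `1 - 16 c` are units at all primes not above `2`. -/
theorem cR2 (R1 : S_R1) : ∀ (n t : ℕ) [SqN n t] (Q : Ideal ZZ), Npr Q → ¬ MP Q 2 →
    ∀ b : Ideal (OO n t), G30 b → UP Q (cO b) ∧ UP Q (1 - 16 * cO b) := by
  intro n t _ Q hQ h2 b hG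
  obtain ⟨V, hV⟩ := exists_VQ hQ
  obtain ⟨vc, vd, -⟩ := good_x (hV.two hQ h2) hG.ne hG.p2
  have r := ((R1 n t).1 b hG).1
  refine ⟨(hV.eq _).1 (by rw [r]; exact vc), (hV.eq _).1 ?_⟩
  rw [map_sub, map_mul, map_one, map_ofNat, r]
  exact vd

end Pool.Agent.DM
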