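import Pool.Agent.Lib.DM.D.D9
import Pool.Agent.Lib.DL.Va

/-!
# Theorems DM and DU (`p = 3`, not split), part D: valuations in the kernel of reduction above `3` (helper58)

`Lc P b`: the local situation (common to the inert and the ramified case). `Lc.w2`: `W(d)² / X(d)³` is a unit; `Lc.dif`:
`(X(z + 2 d) - X(z))² X(d)` is a unit if `2 z` is not in the kernel; `Lc.psi`: the 3-division polynomial; `Lc.trip`: the tripling formula;
`Lc.step`: `v(X(z)) = v(X(3 z))/9`; `Lc.mulv`: `v(X(α z)) = v(X(z))`.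
-/

set_option autoImplicit false

open scoped Pointwise nonZeroDivisors

noncomputable section

namespace Pool.Agent.DM

open Pool.Agent.MuZ Pool.Agent.FW Pool.Agent.DN NumberField IsDedekindDomain
open Pool.Agent.DI (io ofC io_inj exists_io io_ofC ofC_io VP MP UP TP ex)
open Pool.Agent.DL (vl GE Pl)

namespace K3

variable {n t : ℕ}

theorem pl3 {P : Ideal ZZ} (hP : Ab3 P) : Pl P 3 := ⟨by norm_num, by exact_mod_cast hP.2⟩

theorem up_nat {P : Ideal ZZ} (hP : Ab3 P) {j : ℕ} (hj : j.Coprime 3) : UP P (j : Om) :=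
  have := hP.1.1
  ⟨DI.VP.nat j, Dh.nat_up hP hj⟩

/-- The local situation above `3`. -/
structure Lc [SqN n t] (P : Ideal ZZ) (b : Ideal (OO n t)) : Prop where
  ab : Ab3 P
  g : G30 b
  X : XOm b
  c : UP P (cO b)
  b2 : MP P (1 - 8 * cO b)
  iadd : ∀ z z' : ℂ, IK P b z → IK P b z' → IK P b (z + z')
  ilam : ∀ z ∈ Lam b, IK P b z
  imul : ∀ (v : OO n t) (z : ℂ), IK P b z → IK P b (toC v * z)
  iqp : ∀ z : ℂ, IK P b z → Qp P b z
  ivp : ∀ z : ℂ, Tor n t z → ¬ IK P b z → VP P (xO b z) ∧ VP P (vO b z)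
  iup : ∀ z : ℂ, Tor n t z → ¬ IK P b (2 * z) → UP P (vO b z)
  i3 : ∀ (z : ℂ) (j : ℕ), (3 : ℂ) ^ j * z ∈ Lam b → IK P b z

section

variable [SqN n t] {P : Ideal ZZ} {b : Ideal (OO n t)}

theorem Lc.ext (h : Lc P b) {z : ℂ} (hz : IK P b z) (hl : z ∉ Lam b) :
    xO b z ≠ 0 ∧ MP P (xO b z)⁻¹ ∧ vl P 3 (xO b z) < 0 := by
  have := h.ab.1.1
  have hv : ¬ VP P (xO b z) := hz.2.resolve_left hl
  obtain ⟨h0, h1⟩ := DI.VP.not_iff.1 hv
  refine ⟨h0, h1, ?_⟩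
  by_contra hn
  exact hv ((DL.vl_nonneg (pl3 h.ab) h0).1 (not_lt.1 hn))

/-- `W² = X³` up to a unit. -/
theorem Lc.w2 (h : Lc P b) {z : ℂ} (hz : IK P b z) (hl : z ∉ Lam b) :
    UP P (vO b z ^ 2 / xO b z ^ 3) := by
  have := h.ab.1.1
  obtain ⟨h0, h1, -⟩ := h.ext hz hl
  have e : vO b z ^ 2 / xO b z ^ 3 =
      4 + ((1 - 8 * cO b) + 4 * cO b ^ 2 * (xO b z)⁻¹) * (xO b z)⁻¹ := by
    rw [h.X.crv z hz.1 hl]
    field_simp
    ring
  rw [e]
  have h4 : UP P (4 : Om) := by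
    have := up_nat h.ab (j := 4) (by norm_num)
    exact_mod_cast this
  refine DI.UP.congr h4 ?_
  rw [add_sub_cancel_left]
  have h5 : VP P (4 * cO b ^ 2) := h4.1.mul (h.c.1.pow 2)
  exact DI.MP.mul_left (h.b2.vp.add (h5.mul h1.vp)) h1

/-- Points in the kernel minus multiples. -/
theorem Lc.neg2 (h : Lc P b) {d : ℂ} (hd : IK P b d) : IK P b (-(2 * d)) := by
  have h1 := h.imul (-2) d hd
  rw [toC_neg, toC_two] at h1
  have e : -(2 * d) = -2 * d := by ring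
  rwa [e]

theorem Lc.two (h : Lc P b) {d : ℂ} (hd : IK P b d) : IK P b (2 * d) := by
  have h1 := h.imul 2 d hd
  rwa [toC_two] at h1

theorem Lc.neg (h : Lc P b) {d : ℂ} (hd : IK P b d) : IK P b (-d) := by
  have h1 := h.imul (-1) d hd
  rw [toC_neg, toC_one] at h1
  have e : -d = -1 * d := by ring
  rwa [e]

/-- **The difference.** -/
theorem Lc.dif (h : Lc P b) {z d : ℂ} (hz : Tor n t z) (hz2 : ¬ IK P b (2 * z)) (hd : IK P b d)
    (hdl : d ∉ Lam b) : UP P ((xO b (z + 2 * d) - xO b z) ^ 2 * xO b d) := by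
  have := h.ab.1.1
  obtain ⟨h0, h1, -⟩ := h.ext hd hdl
  have ht : Tor n t (z + d) := tor_add hz hd.1
  have a1 : ¬ IK P b (2 * (z + d)) := by
    intro h3
    have h4 := h.iadd _ _ h3 (h.neg2 hd)
    have e : 2 * (z + d) + -(2 * d) = 2 * z := by ring
    rw [e] at h4
    exact hz2 h4
  have a2 : ¬ IK P b (z + d) := fun h3 => a1 (h.two h3)
  have a3 : ¬ IK P b z := fun h3 => hz2 (h.two h3)
  have a4 : z + d + d ∉ Lam b := by
    intro h3
    have h4 := h.iadd _ _ (h.ilam _ h3) (h.neg2 hd)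
    have e : z + d + d + -(2 * d) = z := by ring
    rw [e] at h4
    exact a3 h4
  have a5 : z + d - d ∉ Lam b := by
    rw [add_sub_cancel_right]
    exact fun h3 => a3 (h.ilam _ h3)
  have hk := h.X.ksb (z + d) d ht hd.1 (fun h3 => a2 (h.ilam _ h3)) hdl a4 a5
  have e1 : z + d + d = z + 2 * d := by ring
  rw [add_sub_cancel_right, e1] at hk
  have hA := (h.ivp _ ht a2).1
  have hV := h.iup _ ht a1
  have hW := h.w2 hd hdl
  have hu : UP P ((xO b (z + d) - xO b d) / xO b d) := by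
    have e : (xO b (z + d) - xO b d) / xO b d = -1 + xO b (z + d) * (xO b d)⁻¹ := by
      field_simp
      ring
    rw [e]
    refine DI.UP.congr DI.UP.one.neg ?_
    rw [add_sub_cancel_left]
    exact DI.MP.mul_left hA h1
  have hu0 := hu.ne_zero
  have hAB : xO b (z + d) - xO b d ≠ 0 := fun h3 => hu0 (by rw [h3, zero_div])
  have e : (xO b (z + 2 * d) - xO b z) ^ 2 * xO b d =
      vO b (z + d) ^ 2 * (vO b d ^ 2 / xO b d ^ 3) * (((xO b (z + d) - xO b d) / xO b d) ^ 4)⁻¹ := by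
    have e2 : (xO b (z + 2 * d) - xO b z) = -(vO b (z + d) * vO b d) / (xO b (z + d) - xO b d) ^ 2 := by
      rw [eq_div_iff (pow_ne_zero 2 hAB)]
      exact hk
    rw [e2]
    field_simp
  rw [e]
  exact ((hV.pow 2).mul hW).mul (hu.pow 4).inv

/-- **The 3-division polynomial.** -/
theorem Lc.psi (h : Lc P b) {d : ℂ} (h3 : 3 * d ∈ Lam b) (hd : d ∉ Lam b) :
    3 * xO b d ^ 4 + (1 - 8 * cO b) * xO b d ^ 3 + 6 * cO b ^ 2 * xO b d ^ 2 - cO b ^ 4 = 0 := by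
  have hI : IK P b d := h.i3 d 1 (by rwa [pow_one])
  have h2 : 2 * d ∉ Lam b := by
    intro h4
    apply hd
    have e : d = 3 * d - 2 * d := by ring
    rw [e]
    exact lam_sub h3 h4
  have h5 := h.X.dup d hI.1 h2
  have h6 : xO b (2 * d) = xO b d := h.X.cng' (2 * d) d (Or.inr (by
    have e : 2 * d + d = 3 * d := by ring
    rwa [e]))
  rw [h6, h.X.crv d hI.1 hd] at h5
  linear_combination h5

/-- `3` not in the annihilator: `2 z` is not a lattice point. -/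
theorem Lc.nt (h : Lc P b) {z : ℂ} (hz : IK P b z) (hl : z ∉ Lam b) : 2 * z ∉ Lam b := by
  intro h2
  apply hl
  have h3 := h.iqp z hz 2 1 (by
    have e : toO (2 : OO n t) = 2 := by
      have := toO_nat (n := n) (t := t) 2
      exact_mod_cast this
    rw [e]
    exact Dh.two_not h.ab) (by rwa [mul_one, toC_two])
  rwa [toC_one, one_mul] at h3

/-- **The tripling formula.** -/
theorem Lc.trip (h : Lc P b) {z : ℂ} (hz : IK P b z) (h3 : 3 * z ∉ Lam b) :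
    xO b (3 * z) * (3 * xO b z ^ 4 + (1 - 8 * cO b) * xO b z ^ 3 + 6 * cO b ^ 2 * xO b z ^ 2 - cO b ^ 4) ^ 2 =
      xO b z * (xO b z ^ 4 - 6 * cO b ^ 2 * xO b z ^ 2 - (1 - 8 * cO b) * cO b ^ 2 * xO b z - 3 * cO b ^ 4) ^ 2 := by
  have hl : z ∉ Lam b := by
    intro h4
    apply h3
    have := lam_mul (3 : OO n t) h4
    rwa [toC_three] at this
  have h2 := h.nt hz hl
  have t2 : Tor n t (2 * z) := (h.two hz).1
  have e1 : 2 * z + z = 3 * z := by ring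
  have e2 : 2 * z - z = z := by ring
  have hk := h.X.kml (2 * z) z t2 hz.1 h2 hl (by rwa [e1]) (by rwa [e2])
  rw [e1, e2] at hk
  have hd := h.X.dup z hz.1 h2
  have hc := h.X.crv z hz.1 hl
  have h0 : xO b z ≠ 0 := (h.ext hz hl).1
  have hw : vO b z ≠ 0 := fun h4 => h2 ((h.X.two z hz.1 hl).1 h4)
  generalize xO b (2 * z) = A at *
  generalize xO b (3 * z) = B at *
  generalize xO b z = X at *
  generalize vO b z = W at *
  generalize cO b = c at *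
  have k1 : A * W ^ 2 - X * W ^ 2 =
      -(3 * X ^ 4 + (1 - 8 * c) * X ^ 3 + 6 * c ^ 2 * X ^ 2 - c ^ 4) := by
    linear_combination hd - X * hc
  have k2 : (A * X - c ^ 2) * W ^ 2 =
      X * (X ^ 4 - 6 * c ^ 2 * X ^ 2 - (1 - 8 * c) * c ^ 2 * X - 3 * c ^ 4) := by
    linear_combination X * hd - c ^ 2 * hc
  have k3 : X * (B * (3 * X ^ 4 + (1 - 8 * c) * X ^ 3 + 6 * c ^ 2 * X ^ 2 - c ^ 4) ^ 2) =
      X * (X * (X ^ 4 - 6 * c ^ 2 * X ^ 2 - (1 - 8 * c) * c ^ 2 * X - 3 * c ^ 4) ^ 2) := by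
    have k4 : B * X * (A * W ^ 2 - X * W ^ 2) ^ 2 = ((A * X - c ^ 2) * W ^ 2) ^ 2 := by
      linear_combination W ^ 4 * hk
    rw [k1, k2] at k4
    linear_combination k4
  exact mul_left_cancel₀ h0 k3

/-- `g = ψ_3(X)/X⁴`. -/
theorem Lc.step (h : Lc P b) {θ β : ℚ} (hθ : 0 < θ) (hθ4 : 4 * θ ≤ 1) (hβ : 3 * θ ≤ β)
    (hb2 : GE P 3 β (1 - 8 * cO b)) {z : ℂ} (hz : IK P b z) (h3 : 3 * z ∉ Lam b)
    (hv : -(9 * θ) < vl P 3 (xO b (3 * z))) :
    -θ < vl P 3 (xO b z) ∧ vl P 3 (xO b (3 * z)) = 9 * vl P 3 (xO b z) := by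
  have := h.ab.1.1
  have hp := pl3 h.ab
  have hl : z ∉ Lam b := by
    intro h4
    apply h3
    have := lam_mul (3 : OO n t) h4
    rwa [toC_three] at this
  obtain ⟨h0, h1, hneg⟩ := h.ext hz hl
  have hI3 : IK P b (3 * z) := by
    have := h.imul 3 z hz
    rwa [toC_three] at this
  obtain ⟨h30, -, -⟩ := h.ext hI3 h3
  have ht := h.trip hz h3
  set X := xO b z with hX
  set c := cO b with hc
  set Y := X⁻¹ with hY
  have hY0 : Y ≠ 0 := inv_ne_zero h0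
  have hvY : vl P 3 Y = -vl P 3 X := DL.vl_inv hp h0
  set s := vl P 3 Y with hs
  have hs0 : 0 < s := by linarith
  have hcV : VP P c := h.c.1
  have hc0 : c ≠ 0 := h.c.ne_zero
  have hvc : vl P 3 c = 0 := DL.vl_of_up hp h.c
  -- the two factors
  have hgg : 3 * X ^ 4 + (1 - 8 * c) * X ^ 3 + 6 * c ^ 2 * X ^ 2 - c ^ 4 =
      X ^ 4 * (-(c ^ 4 * Y ^ 4) + (3 + (1 - 8 * c) * Y + 3 * (2 * c ^ 2 * Y ^ 2))) := by
    rw [hY]
    field_simp
    ring
  have hhh : X ^ 4 - 6 * c ^ 2 * X ^ 2 - (1 - 8 * c) * c ^ 2 * X - 3 * c ^ 4 =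
      X ^ 4 * (1 + (-(6 * c ^ 2 * Y) - (1 - 8 * c) * c ^ 2 * Y ^ 2 - 3 * c ^ 4 * Y ^ 3) * Y) := by
    rw [hY]
    field_simp
    ring
  rw [hgg, hhh] at ht
  set g := -(c ^ 4 * Y ^ 4) + (3 + (1 - 8 * c) * Y + 3 * (2 * c ^ 2 * Y ^ 2)) with hg
  set k := 1 + (-(6 * c ^ 2 * Y) - (1 - 8 * c) * c ^ 2 * Y ^ 2 - 3 * c ^ 4 * Y ^ 3) * Y with hk
  have hYV : VP P Y := h1.vp
  have h6 : VP P (6 : Om) := by exact_mod_cast DI.VP.nat (P := P) 6
  have h3V : VP P (3 : Om) := by exact_mod_cast DI.VP.nat (P := P) 3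
  have h2V : VP P (2 : Om) := by exact_mod_cast DI.VP.nat (P := P) 2
  have hkU : UP P k := by
    refine DI.UP.congr DI.UP.one ?_
    rw [hk, add_sub_cancel_left]
    refine DI.MP.mul_left ?_ h1
    exact ((((h6.mul (hcV.pow 2)).mul hYV).neg).sub ((h.b2.vp.mul (hcV.pow 2)).mul (hYV.pow 2))).sub
      ((h3V.mul (hcV.pow 4)).mul (hYV.pow 3))
  have ht2 : xO b (3 * z) * g ^ 2 = X * k ^ 2 := by
    have h8 : X ^ 8 ≠ 0 := pow_ne_zero 8 h0
    apply mul_left_cancel₀ h8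
    linear_combination ht
  have hg0 : g ≠ 0 := by
    intro h4
    rw [h4] at ht2
    have : X * k ^ 2 = 0 := by rw [← ht2]; ring
    exact mul_ne_zero h0 (pow_ne_zero 2 hkU.ne_zero) this
  have hval : vl P 3 (xO b (3 * z)) + 2 * vl P 3 g = -s := by
    have h5 := congrArg (vl P 3) ht2
    rw [DL.vl_mul hp h30 (pow_ne_zero 2 hg0), DL.vl_mul hp h0 (pow_ne_zero 2 hkU.ne_zero),
      DL.vl_pow hp hg0, DL.vl_pow hp hkU.ne_zero, DL.vl_of_up hp hkU] at h5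
    push_cast at h5
    linarith
  have hcy : c ^ 4 * Y ^ 4 ≠ 0 := mul_ne_zero (pow_ne_zero 4 hc0) (pow_ne_zero 4 hY0)
  have hvcy : vl P 3 (c ^ 4 * Y ^ 4) = 4 * s := by
    rw [DL.vl_mul hp (pow_ne_zero 4 hc0) (pow_ne_zero 4 hY0), DL.vl_pow hp hc0, DL.vl_pow hp hY0, hvc]
    push_cast
    ring
  have g3 : GE P 3 1 (3 : Om) := Or.inr (by
    have := DL.vl_two hp
    push_cast at this
    exact this.ge)
  have gY : GE P 3 s Y := Or.inr le_rfl
  have gr : ∀ q : ℚ, q ≤ 1 → q ≤ β + s → GE P 3 q (3 + (1 - 8 * c) * Y + 3 * (2 * c ^ 2 * Y ^ 2)) := by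
    intro q h4 h5
    refine ((g3.mono h4).add hp ((hb2.mul hp gY).mono h5)).add hp ?_
    exact (GE.mul_right hp g3 ((h2V.mul (hcV.pow 2)).mul (hYV.pow 2))).mono h4
  have hlt : s < θ := by
    by_contra hn
    have hn' : θ ≤ s := not_lt.1 hn
    have h5 : GE P 3 (4 * θ) g := by
      refine GE.add hp (GE.neg hp (Or.inr ?_)) (gr _ hθ4 (by linarith))
      rw [hvcy]
      linarith
    have h7 : 4 * θ ≤ vl P 3 g := h5.resolve_left hg0
    linarith
  refine ⟨by linarith, ?_⟩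
  have h7 : vl P 3 g = 4 * s := by
    have h8 : -(c ^ 4 * Y ^ 4) ≠ 0 := neg_ne_zero.2 hcy
    have h9 : vl P 3 (-(c ^ 4 * Y ^ 4)) = 4 * s := by rw [DL.vl_neg hp hcy, hvcy]
    have hq : ∃ q : ℚ, 4 * s < q ∧ q ≤ 1 ∧ q ≤ β + s :=
      ⟨min 1 (β + s), lt_min (by linarith) (by linarith), min_le_left _ _, min_le_right _ _⟩
    obtain ⟨q, q1, q2, q3⟩ := hq
    have h10 := (DL.vl_add_lt hp h8 (y := 3 + (1 - 8 * c) * Y + 3 * (2 * c ^ 2 * Y ^ 2)) (by
      rcases gr q q2 q3 with h11 | h11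
      · exact Or.inl h11
      · right
        rw [h9]
        exact lt_of_lt_of_le q1 h11)).2
    rw [hg, h10, h9]
  linarith

end

end K3

end Pool.Agent.DM
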