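import Pool.Agent.Lib.DM.IfaceC
import Pool.Agent.Lib.DM.E.XOm

/-!
# Theorem DM: the numbers `κ(b) = 1/(3 W(1/3)³)` (`S_Kp`) (author helper28)
-/

set_option autoImplicit false

open scoped Pointwise nonZeroDivisors

noncomputable section

namespace Pool.Agent.DM

open Pool.Agent.MuZ Pool.Agent.FW NumberField IsDedekindDomain
open Pool.Agent.DI (io ofC io_inj exists_io io_ofC ofC_io VP MP UP TP ex)
open Pool.Agent.DN

/-! ## The element `w8` -/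

theorem w8_ne (h : w8 ^ 8 = 3) : w8 ≠ 0 := by
  intro h0
  rw [h0] at h
  norm_num at h

theorem w8_vp {P : Ideal ZZ} [P.IsPrime] (h : w8 ^ 8 = 3) : VP P w8 := by
  refine DI.VP.of_pow (n := 8) (by norm_num) ?_
  rw [h]
  exact_mod_cast DI.VP.nat 3

theorem not_two {P : Ideal ZZ} [P.IsPrime] (h3 : MP P 3) : ¬ MP P 2 := by
  intro h2
  have h := DI.MP.sub h3 h2
  have e : (3 : Om) - 2 = 1 := by norm_num
  rw [e] at h
  exact DI.MP.one_not h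

/-- The valuations at a point of order three, abstract form. -/
theorem val3 {P : Ideal ZZ} [P.IsPrime] (h8 : w8 ^ 8 = 3) (h3 : MP P 3) {c b2 x W : Om} (hc : UP P c)
    (hb : TP P 3 b2) (h1 : 3 * x ^ 4 + b2 * x ^ 3 + 6 * c ^ 2 * x ^ 2 = c ^ 4)
    (h2 : W ^ 2 = 4 * x ^ 3 + b2 * x ^ 2 + 4 * c ^ 2 * x) :
    MP P x⁻¹ ∧ UP P (3 * x ^ 4) ∧ UP P (W * w8 ^ 3) := by
  obtain ⟨β, hβ, rfl⟩ := hb
  have v2 : VP P (2 : Om) := by exact_mod_cast DI.VP.nat 2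
  have v4 : VP P (4 : Om) := by exact_mod_cast DI.VP.nat 4
  have v3 : VP P (3 : Om) := h3.vp
  have vc2 : VP P (c ^ 2) := hc.1.pow 2
  have hx : ¬ VP P x := by
    intro hx
    have h5 : MP P (c ^ 4) := by
      rw [← h1]
      have e : 3 * x ^ 4 + 3 * β * x ^ 3 + 6 * c ^ 2 * x ^ 2 =
          3 * (x ^ 4 + β * x ^ 3 + 2 * c ^ 2 * x ^ 2) := by ring
      rw [e]
      exact DI.MP.mul_right h3 (((hx.pow 4).add (hβ.mul (hx.pow 3))).add ((v2.mul vc2).mul (hx.pow 2)))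
    exact (hc.pow 4).2 h5
  obtain ⟨hx0, hy⟩ := DI.VP.not_iff.1 hx
  set y := x⁻¹ with hydef
  have hxy : x * y = 1 := mul_inv_cancel₀ hx0
  have vy := hy.vp
  -- the first unit
  have u1 : UP P (1 + (β * y + 2 * c ^ 2 * y ^ 2)) := by
    refine DI.UP.congr DI.UP.one ?_
    have e : 1 + (β * y + 2 * c ^ 2 * y ^ 2) - 1 = y * (β + 2 * c ^ 2 * y) := by ring
    rw [e]
    exact DI.MP.mul_right hy (hβ.add ((v2.mul vc2).mul vy))
  have k1 : 3 * x ^ 4 * (1 + (β * y + 2 * c ^ 2 * y ^ 2)) = c ^ 4 := by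
    rw [← h1]
    linear_combination (3 * β * x ^ 3 + 6 * c ^ 2 * x ^ 3 * y + 6 * c ^ 2 * x ^ 2) * hxy
  have k2 : UP P (3 * x ^ 4) := by
    have e : 3 * x ^ 4 = c ^ 4 / (1 + (β * y + 2 * c ^ 2 * y ^ 2)) := by
      rw [← k1, mul_div_cancel_right₀ _ u1.ne_zero]
    rw [e]
    exact (hc.pow 4).div u1
  -- the second unit
  have u2 : UP P (1 + (3 + 3 * β * y + 4 * c ^ 2 * y ^ 2)) := by
    refine DI.UP.congr DI.UP.one ?_
    have e : 1 + (3 + 3 * β * y + 4 * c ^ 2 * y ^ 2) - 1 = 3 * (1 + β * y) + y * (4 * c ^ 2 * y) := by ring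
    rw [e]
    exact (DI.MP.mul_right h3 (DI.VP.one.add (hβ.mul vy))).add
      (DI.MP.mul_right hy ((v4.mul vc2).mul vy))
  have k3 : W ^ 2 = x ^ 3 * (1 + (3 + 3 * β * y + 4 * c ^ 2 * y ^ 2)) := by
    rw [h2]
    linear_combination (-(3 * β * x ^ 2) - 4 * c ^ 2 * x ^ 2 * y - 4 * c ^ 2 * x) * hxy
  refine ⟨hy, k2, ?_⟩
  refine DI.UP.of_pow (n := 8) (by norm_num) ?_
  have e : (W * w8 ^ 3) ^ 8 = (3 * x ^ 4) ^ 3 * (1 + (3 + 3 * β * y + 4 * c ^ 2 * y ^ 2)) ^ 4 := by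
    have e1 : (W * w8 ^ 3) ^ 8 = (W ^ 2) ^ 4 * (w8 ^ 8) ^ 3 := by ring
    rw [e1, k3, h8]
    ring
  rw [e]
  exact (k2.pow 3).mul (u2.pow 4)

variable {n t : ℕ}

/-- The point `1/3`. -/
theorem third [SqN n t] {b : Ideal (OO n t)} (hb : G30 b) :
    (1 / 3 : ℂ) ∉ Lam b ∧ 2 * (1 / 3 : ℂ) ∉ Lam b ∧ 2 * (1 / 3 : ℂ) + 1 / 3 ∈ Lam b ∧ (3 : ℂ) * (1 / 3) ∈ Lam b := by
  have h3 : PrI b 3 := Eb.pri_dvd hb.cop ⟨10, rfl⟩
  have l1 := (pts hb.ne hb.p2).1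
  have n1 : (1 / 3 : ℂ) ∉ Lam b := by
    intro h
    have h1 := (aL6.1 n t b 3 hb.ne (by norm_num) h3 1).1 (by rw [toC_one, Nat.cast_ofNat]; exact h)
    have h2 := ((nat_dvd_iff 3 (1 : OO n t)).1 h1).1
    rw [re_one] at h2
    omega
  have e1 : 2 * (1 / 3 : ℂ) + 1 / 3 = 1 := by norm_num
  have e2 : (3 : ℂ) * (1 / 3) = 1 := by norm_num
  refine ⟨n1, fun h => n1 ?_, by rw [e1]; exact l1, by rw [e2]; exact l1⟩
  have := lam_sub l1 h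
  have e3 : (1 : ℂ) - 2 * (1 / 3) = 1 / 3 := by norm_num
  rwa [e3] at this

/-- The division polynomial at `1/3`. -/
theorem psi3 [SqN n t] {b : Ideal (OO n t)} (hb : G30 b) (X : XOm b) :
    3 * xO b (1 / 3) ^ 4 + (1 - 8 * cO b) * xO b (1 / 3) ^ 3 + 6 * cO b ^ 2 * xO b (1 / 3) ^ 2 = cO b ^ 4 ∧
    vO b (1 / 3) ^ 2 = 4 * xO b (1 / 3) ^ 3 + (1 - 8 * cO b) * xO b (1 / 3) ^ 2 +
      4 * cO b ^ 2 * xO b (1 / 3) := by
  obtain ⟨h1, h2, h3, -⟩ := third hb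
  have c := X.crv _ tor_third h1
  have d := X.dup _ tor_third h2
  rw [X.cng' _ _ (Or.inr h3)] at d
  refine ⟨?_, c⟩
  linear_combination d - xO b (1 / 3) * c

/-- `W(1/3) w8³` is a unit. -/
theorem om_unit (hX : S_XOm) (hR2 : S_R2) (h8 : w8 ^ 8 = 3) [Ine3 n t] {P : Ideal ZZ} (hP : Ab3 P)
    {b : Ideal (OO n t)} (hb : G30 b) : UP P (vO b (1 / 3) * w8 ^ 3) := by
  have : P.IsPrime := hP.1.1
  obtain ⟨k1, k2⟩ := psi3 hb (hX n t b hb)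
  exact (val3 h8 hP.2 (hR2.1 n t P hP.1 (not_two hP.2) b hb).1 (hR2.2.2 n t P hP b hb) k1 k2).2.2

theorem kp_eq (h8 : w8 ^ 8 = 3) (b : Ideal (OO n t)) : kp b = w8 * ((vO b (1 / 3) * w8 ^ 3) ^ 3)⁻¹ := by
  have h0 := w8_ne h8
  unfold kp
  rw [← h8]
  by_cases hv : vO b (1 / 3) = 0
  · rw [hv]
    simp
  · field_simp

/-- The isogeny at the point `1/3`. -/
theorem iso3 (hX : S_XOm) (hD1 : S_D1) (hD2 : S_D2) [Ine3 n t] {P : Ideal ZZ} (hP : Ab3 P)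
    {b : Ideal (OO n t)} (hb : G30 b) {a : Ideal (OO n t)} (ha : a ≠ ⊥) (ha30 : PrI a 30) :
    VP P (rO b (a * b) ^ 3 * vO (a * b) (1 / 3) - vO b (1 / 3)) := by
  have : P.IsPrime := hP.1.1
  have hab : G30 (a * b) := G30.mul ⟨ha, ha30⟩ hb
  obtain ⟨-, -, R, hR, -⟩ := aL3 n t a b ha hb.ne
  have X := hX n t b hb
  rw [(X.sum a ha ha30 R hR).2 _ tor_third (third hab).1]
  obtain ⟨u0, hu0, hu0'⟩ := hR.ex 0 (lam_zero _)
  rw [zero_sub] at hu0'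
  have hu1 : u0 ∈ Lam b := lam_neg_iff.1 hu0'
  rw [← Finset.add_sum_erase R _ hu0, (X.per _ _ hu1).2, add_sub_cancel_left]
  refine DI.VP.sum _ _ fun u hu => ?_
  obtain ⟨hne, huR⟩ := Finset.mem_erase.1 hu
  have hub : u ∉ Lam b := fun h => hne (hR.uni u huR u0 hu0 (lam_sub h hu1))
  have hTu : Tor n t u := sys_tor ha hb.ne hR huR
  obtain ⟨d1, -, d3, -, d5, -⟩ := hD1 n t P hP.1 (not_two hP.2) b hb
  obtain ⟨e1, -, -, e4, -⟩ := hD2 n t P hP b hb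
  have hK3 : IK P b (1 / 3) := e1 (1 / 3) 1 (by rw [pow_one]; exact (third hb).2.2.2)
  refine (e4 _ (tor_add tor_third hTu) fun hK => hub ?_).2
  have hKu : IK P b u := by
    have hneg := d3 (-1) _ hK3
    rw [toC_neg, toC_one] at hneg
    have := d1 _ _ hK hneg
    have e : 1 / 3 + u + -1 * (1 / 3) = u := by ring
    rwa [e] at this
  have hQ := d5 u hKu
  have hN0 : ¬ MP P (toO ((NI a : ℕ) : OO n t)) := by
    have h3 : PrI a 3 := Eb.pri_dvd ha30 ⟨10, rfl⟩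
    have hco := ((aO6 n t).2.2.1 3 a (by norm_num)).1 h3
    intro hM
    have e : toO ((NI a : ℕ) : OO n t) = ((NI a : ℕ) : Om) := by
      apply io_inj
      rw [io_toO, toC_nat, map_natCast]
    rw [e] at hM
    obtain ⟨x, y, hxy⟩ := Nat.isCoprime_iff_coprime.2 hco
    have h5 : MP P ((x : Om) * (NI a : Om) + (y : Om) * 3) :=
      (DI.MP.mul_left (DI.VP.int x) hM).add (DI.MP.mul_left (DI.VP.int y) hP.2)
    have h6 := congrArg (Int.cast : ℤ → Om) hxy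
    push_cast at h6
    rw [h6] at h5
    exact DI.MP.one_not h5
  have h7 := hQ ((NI a : ℕ) : OO n t) 1 hN0 ?_
  · rw [toC_one, one_mul] at h7
    exact h7
  · rw [mul_one]
    exact lam_prod.1 (hR.mem u huR) _ (Ideal.absNorm_mem a)

/-- **`S_Kp`.** -/
theorem sKp (hX : S_XOm) (hR2 : S_R2) (hD1 : S_D1) (hD2 : S_D2) (hT0 : S_T0) : S_Kp := by
  intro n t _ P hP b hb
  obtain ⟨h8, hz⟩ := hT0
  have : P.IsPrime := hP.1.1
  have w0 := w8_ne h8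
  have vw := w8_vp (P := P) h8
  have hU := om_unit hX hR2 h8 hP hb
  have hk : UP P (kp b / w8) := by
    rw [kp_eq h8, mul_div_cancel_left₀ _ w0]
    exact (hU.pow 3).inv
  have h2 : ∀ a : Ideal (OO n t), a ≠ ⊥ → PrI a 30 →
      TP P (3 * w8 ^ 2) (kp (a * b) - rO b (a * b) ^ 9 * kp b) := by
    intro a ha ha30
    have hab : G30 (a * b) := G30.mul ⟨ha, ha30⟩ hb
    have hU' := om_unit hX hR2 h8 hP hab
    have hr : UP P (rO b (a * b)) := (hD2 n t P hP b hb).2.2.2.2.2.2.2 a ha ha30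
    have hI := iso3 hX hD1 hD2 hP hb ha ha30
    set r := rO b (a * b)
    set I := r ^ 3 * vO (a * b) (1 / 3) - vO b (1 / 3) with hIdef
    rw [kp_eq h8, kp_eq h8]
    set B := vO b (1 / 3) * w8 ^ 3 with hB
    set A := vO (a * b) (1 / 3) * w8 ^ 3 with hA
    have hAB : r ^ 3 * A = B + w8 ^ 3 * I := by
      rw [hIdef, hB, hA]
      ring
    refine ⟨-((A ^ 3)⁻¹ * (B ^ 3)⁻¹ * (w8 ^ 2 * B ^ 2 * I + w8 ^ 5 * B * I ^ 2 + I ^ 3)), ?_, ?_⟩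
    · refine DI.VP.neg (((hU'.pow 3).inv.1.mul (hU.pow 3).inv.1).mul ?_)
      exact ((((vw.pow 2).mul (hU.1.pow 2)).mul hI).add (((vw.pow 5).mul hU.1).mul (hI.pow 2))).add
        (hI.pow 3)
    · have a0 := hU'.ne_zero
      have b0 := hU.ne_zero
      have e : A ^ 3 * B ^ 3 * (w8 * (A ^ 3)⁻¹ - r ^ 9 * (w8 * (B ^ 3)⁻¹)) =
          w8 * (B ^ 3 - (r ^ 3 * A) ^ 3) := by
        field_simp
      have e2 : A ^ 3 * B ^ 3 * (3 * w8 ^ 2 *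
          -((A ^ 3)⁻¹ * (B ^ 3)⁻¹ * (w8 ^ 2 * B ^ 2 * I + w8 ^ 5 * B * I ^ 2 + I ^ 3))) =
          -(3 * w8 ^ 2 * (w8 ^ 2 * B ^ 2 * I + w8 ^ 5 * B * I ^ 2 + I ^ 3)) := by
        field_simp
      apply mul_left_cancel₀ (mul_ne_zero (pow_ne_zero 3 a0) (pow_ne_zero 3 b0))
      rw [e, e2, hAB]
      linear_combination (-w8 ^ 2 * I ^ 3) * h8
  refine ⟨hk, h2, ?_⟩
  intro α hα hα3
  obtain ⟨-, z2⟩ := hz n t P hP α α
  obtain ⟨z3, ⟨y, vy, hy⟩, -⟩ := z2 hα3 hα3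
  have hα0 : α ≠ 0 := by
    rintro rfl
    unfold Cop at hα3
    rw [Nm_zero] at hα3
    have := isCoprime_zero_left.1 hα3
    rw [Int.isUnit_iff] at this
    rcases this with h | h <;> norm_num at h
  have h20 : Cop α 20 := by
    have h : ((20 : ℕ) : OO n t) ∣ 1 - α := by
      obtain ⟨u, hu⟩ := hα
      refine ⟨-u, ?_⟩
      push_cast
      linear_combination -hu
    exact cop_congr h (cop_one 20)
  have h30 : Cop α 30 := by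
    have h10 : Cop α 10 := cop_dvd h20 ⟨2, rfl⟩
    unfold Cop at *
    have := hα3.mul_right h10
    push_cast at this ⊢
    exact this
  have h4 : (4 : OO n t) ∣ α - 1 := by
    obtain ⟨u, hu⟩ := hα
    refine ⟨5 * u, ?_⟩
    rw [hu]
    ring
  obtain ⟨-, hr, -⟩ := (hX n t b hb).hom α hα0 h4 h30
  obtain ⟨s, vs, hs⟩ := h2 (sp α) (Eb.ne_sp hα0) (pri_sp (by norm_num) h30)
  rw [hr] at hs
  have hzz : VP P (zt P α) := by
    refine DI.VP.of_pow (n := 8) (by norm_num) ?_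
    rw [z3]
    exact DI.VP.one
  obtain ⟨κ, hκ⟩ : ∃ κ : Om, κ = kp b / w8 := ⟨_, rfl⟩
  have hk' : kp b = w8 * κ := by
    rw [hκ, mul_div_cancel₀ _ w0]
  rw [← hκ] at hk
  have v3 : VP P (3 : Om) := hP.2.vp
  -- `toO α = zt - 3 y`
  have ht : toO α = zt P α - 3 * y := by linear_combination -hy
  set z := zt P α
  have h9 : (z - 3 * y) ^ 9 = z + 9 * (-(3 * y * z ^ 8) + 36 * y ^ 2 * z ^ 7 - 3 * 84 * y ^ 3 * z ^ 6 +
      9 * 126 * y ^ 4 * z ^ 5 - 27 * 126 * y ^ 5 * z ^ 4 + 81 * 84 * y ^ 6 * z ^ 3 -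
      243 * 36 * y ^ 7 * z ^ 2 + 729 * 9 * y ^ 8 * z - 2187 * y ^ 9) := by
    linear_combination z * z3
  refine ⟨s + w8 ^ 7 * κ * (-(3 * y * z ^ 8) + 36 * y ^ 2 * z ^ 7 - 3 * 84 * y ^ 3 * z ^ 6 +
      9 * 126 * y ^ 4 * z ^ 5 - 27 * 126 * y ^ 5 * z ^ 4 + 81 * 84 * y ^ 6 * z ^ 3 -
      243 * 36 * y ^ 7 * z ^ 2 + 729 * 9 * y ^ 8 * z - 2187 * y ^ 9), ?_, ?_⟩
  · refine vs.add (((vw.pow 7).mul hk.1).mul ?_)
    have vn : ∀ j : ℕ, VP P (j : Om) := fun j => DI.VP.nat j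
    have q : ∀ (j a b : ℕ), VP P ((j : Om) * y ^ a * z ^ b) := fun j a b =>
      ((vn j).mul (vy.pow a)).mul (hzz.pow b)
    have e : -(3 * y * z ^ 8) + 36 * y ^ 2 * z ^ 7 - 3 * 84 * y ^ 3 * z ^ 6 +
      9 * 126 * y ^ 4 * z ^ 5 - 27 * 126 * y ^ 5 * z ^ 4 + 81 * 84 * y ^ 6 * z ^ 3 -
      243 * 36 * y ^ 7 * z ^ 2 + 729 * 9 * y ^ 8 * z - 2187 * y ^ 9 =
      -(((3 : ℕ) : Om) * y ^ 1 * z ^ 8) + ((36 : ℕ) : Om) * y ^ 2 * z ^ 7 -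
      ((252 : ℕ) : Om) * y ^ 3 * z ^ 6 + ((1134 : ℕ) : Om) * y ^ 4 * z ^ 5 -
      ((3402 : ℕ) : Om) * y ^ 5 * z ^ 4 + ((6804 : ℕ) : Om) * y ^ 6 * z ^ 3 -
      ((8748 : ℕ) : Om) * y ^ 7 * z ^ 2 + ((6561 : ℕ) : Om) * y ^ 8 * z ^ 1 -
      ((2187 : ℕ) : Om) * y ^ 9 * z ^ 0 := by
      push_cast
      ring
    rw [e]
    exact ((((((((q 3 1 8).neg.add (q 36 2 7)).sub (q 252 3 6)).add (q 1134 4 5)).sub
      (q 3402 5 4)).add (q 6804 6 3)).sub (q 8748 7 2)).add (q 6561 8 1)).sub (q 2187 9 0)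
  · rw [ht, h9, hk'] at hs
    rw [hk']
    linear_combination hs - 3 * w8 * κ * (-(3 * y * z ^ 8) + 36 * y ^ 2 * z ^ 7 - 3 * 84 * y ^ 3 * z ^ 6 +
      9 * 126 * y ^ 4 * z ^ 5 - 27 * 126 * y ^ 5 * z ^ 4 + 81 * 84 * y ^ 6 * z ^ 3 -
      243 * 36 * y ^ 7 * z ^ 2 + 729 * 9 * y ^ 8 * z - 2187 * y ^ 9) * h8

end Pool.Agent.DM
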