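import Pool.Agent.Lib.DM.D.D2
import Pool.Agent.Lib.DM.E.InC
import Pool.Agent.Lib.DM.E.All
import Pool.Agent.Lib.DS.E.AllZ

/-!
# Theorem DM: `S_R2`, `S_D1`, `S_D2`, `S_E4n`, `S_E4a` without hypotheses (helper46)
-/

set_option autoImplicit false

open scoped Pointwise nonZeroDivisors

noncomputable section

namespace Pool.Agent.DM

open Pool.Agent.MuZ Pool.Agent.FW NumberField IsDedekindDomain
open Pool.Agent.DI (io ofC io_inj exists_io io_ofC ofC_io VP MP UP TP ex)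
open Pool.Agent.DN

section

variable {n t : ℕ} [Nsp n t] {P : Ideal ZZ}

/-- The inertia elements of `Gal(Om/K)` above three: the class modulo `60`. -/
theorem ine60 (hP : Ab3 P) {τ : Gal(Om/ℚ)} (hτ : τ ∈ P.inertia Gal(Om/ℚ)) (hG : τ ∈ GK n t) :
    ∃ y : OO n t, y ≠ 0 ∧ Cop y 60 ∧ (20 : OO n t) ∣ y - 1 ∧ Psi τ 60 (sp y) := by
  have hS : S3 n t P := ⟨hP, cR2n zR1 hP g30_top⟩
  obtain ⟨a, ha⟩ := (DS.zE1 n t 60 (by norm_num) (by norm_num)).1 τ hG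
  have hLv : Lv 20 := ⟨by norm_num, by norm_num, by norm_num⟩
  have hray : Ray 20 a (⊤ : Ideal (OO n t)) :=
    in_main zXOm zR1 (tD1 zR1) DS.zE1 (zE10 DS.zD1) hS hG hτ hLv (dvd_refl 20) ha
  obtain ⟨α, α', hα0, hα'0, hcα, -, hd, he⟩ := hray
  rw [Ideal.mul_top] at he
  have hm : α' ∈ sp α * a := by
    rw [he]
    exact Ideal.mem_span_singleton_self α'
  obtain ⟨y, -, hy⟩ := Ideal.mem_span_singleton_mul.1 hm
  have hay : a = sp y := by
    rw [← hy] at he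
    have h5 : sp α * a = sp α * sp y := by
      rw [he]
      exact (Ideal.span_singleton_mul_span_singleton α y).symm
    exact (Ideal.span_singleton_mul_right_inj hα0).1 h5
  have hy0 : y ≠ 0 := by
    rintro rfl
    exact hα'0 (by rw [← hy, mul_zero])
  have hfy : ((20 : ℕ) : OO n t) ∣ y - 1 := by
    obtain ⟨β, -, hβ⟩ := cop_inv hcα
    have h6 : y - 1 = -β * (α - α') - (α * β - 1) * (y - 1) := by
      rw [← hy]
      ring
    rw [h6]
    exact dvd_sub (hd.mul_left _) (hβ.mul_right _)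
  have hcy : Cop y 60 := by
    refine ((aO6 n t).2.2.2.1 60 y (by norm_num)).1 ?_
    rw [← hay]
    exact Eb.psi_pri ha
  exact ⟨y, hy0, hcy, by exact_mod_cast hfy, by rwa [← hay]⟩

/-- The inertia elements of `Gal(Om/K)` above three: the values of the functions. -/
theorem ine_fun (hP : Ab3 P) {τ : Gal(Om/ℚ)} (hτ : τ ∈ P.inertia Gal(Om/ℚ)) (hG : τ ∈ GK n t) :
    ∃ y : OO n t, y ≠ 0 ∧ Cop y 60 ∧ (20 : OO n t) ∣ y - 1 ∧ ∀ b : Ideal (OO n t), G30 b →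
      τ (cO b) = cO b ∧ ∀ z : ℂ, (60 : ℂ) * z ∈ Lam b →
        τ (xO b z) = xO b (toC y * z) ∧ τ (vO b z) = vO b (toC y * z) := by
  obtain ⟨y, hy0, hcy, hy20, hψ⟩ := ine60 hP hτ hG
  refine ⟨y, hy0, hcy, hy20, fun b hb => ?_⟩
  obtain ⟨-, h1, -, h2, -⟩ := (zE10 DS.zD1 n t τ 60 (sp y) (by norm_num) (dvd_refl 60) hψ).2.1 b hb
  obtain ⟨k1, -, k2⟩ := (zXOm n t b hb).hom y hy0 (Dvd.dvd.trans ⟨5, by norm_num⟩ hy20)
    (cop_dvd hcy (by norm_num))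
  refine ⟨by rw [h1, k1], fun z hz => ?_⟩
  obtain ⟨h3, h4⟩ := h2 z (by exact_mod_cast hz)
  obtain ⟨k3, k4⟩ := k2 z
  exact ⟨by rw [h3, k3], by rw [h4, k4]⟩

end

/-- **`S_R2`.** -/
theorem zR2 : S_R2 := by
  refine ⟨cR2 zR1, fun n t _ P hP b hb => cR2n zR1 hP hb, fun n t _ P hP b hb => ?_⟩
  have := hP.1.1
  have h3 : MP P ((3 : ℕ) : Om) := by
    rw [Nat.cast_ofNat]
    exact hP.2
  have hM : MP P (1 - 8 * cO b) := by
    have e : 1 - 8 * cO b = 3 * 3 - 8 * (cO b + 1) := by ring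
    have v3 : VP P (3 : Om) := by exact_mod_cast DI.VP.nat (P := P) 3
    have v8 : VP P (8 : Om) := by exact_mod_cast DI.VP.nat (P := P) 8
    rw [e]
    exact (DI.MP.mul_right hP.2 v3).sub (DI.MP.mul_left v8 (cR2n zR1 hP hb))
  have h := aUnI P 3 hP.1 Nat.prime_three h3 (1 - 8 * cO b) (fun τ hτ => ?_) hM
  · rwa [Nat.cast_ofNat] at h
  · obtain ⟨y, -, -, -, hf⟩ := ine_fun (n := n) (t := t) hP hτ (in_GK hP hτ)
    rw [map_sub, map_mul, map_one, map_ofNat, (hf b hb).1]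

theorem zD1 : S_D1 := tD1 zR1
theorem zD2n : S_D2n := tD2n zR1 zXOm
theorem zD2 : S_D2 := tD2 zR1 zXOm
theorem zE4n : S_E4n := sE4n zXOm zR1 zR2 zD1 DS.zE1 (zE10 DS.zD1)
theorem zE4a : S_E4a := sE4a zXOm zR1 zR2 zD1 DS.zE1 (zE10 DS.zD1)

end Pool.Agent.DM
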